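import Pool.Agent.R917.DT.Lift
import Pool.Agent.R917.GL.Top

set_option autoImplicit false
set_option linter.unusedSectionVars false
set_option linter.unusedSimpArgs false

/-!
# Abelian varieties with a rigid derived algebra and an elliptic centre are determined
-/

open Module Function TensorProduct Matrix

noncomputable section

namespace Pool.Agent.R917.DT

open Pool.Agent.Y102 Pool.Agent.W516.DR Pool.Agent.H204R3.GP Pool.Agent.W516.KC
  Pool.Agent.H204R3.SP Pool.Agent.TH119.MX Pool.Agent.R917.OM Pool.Agent.Y102.AbVar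
  Pool.Agent.R917.EC

open EP (Cm mat_ext v0 v0_ne)

variable {g : ℕ} {A : AbVar g} {M : Type} [Finite M] (S : CMS A M)

/-- **The replicas of the central elements.** -/
theorem RC_central {M : Type} [Fintype M] [DecidableEq M] {𝔥 : Submodule ℚ (Module.End ℚ A.H1)}
    (hRC : RC 𝔥) {Z : M → Module.End ℚ A.H1} {δ : M → ℂ} {q : M → ℚ}
    (hq : ∀ c, δ c ^ 2 = q c) (irr : ∀ c, ¬ ∃ x : ℚ, δ c = x)
    (hZZ : ∀ c d, c ≠ d → Z c * Z d = 0) (hZ3 : ∀ c, Z c * Z c * Z c = q c • Z c)
    {a : M → ℚ} (ha : (∑ c, a c • Z c) ∈ 𝔥) (σ : RingAut ℂ) :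
    (∑ c, (sgn σ (δ c) * a c) • Z c) ∈ 𝔥 := by
  classical
  have hδ : ∀ c, δ c ≠ 0 := fun c h => irr c ⟨0, by rw [h, Rat.cast_zero]⟩
  let z : M → Matrix (Fin (2 * g)) (Fin (2 * g)) ℂ := fun c => rm (Z c)
  have hzz : ∀ c d, c ≠ d → z c * z d = 0 := fun c d hcd => by
    change rm (Z c) * rm (Z d) = 0
    rw [← rm_mul, hZZ d c hcd.symm, rm_zero]
  have hz3 : ∀ c, z c * z c * z c = (q c : ℂ) • z c := fun c => by
    change rm (Z c) * rm (Z c) * rm (Z c) = (q c : ℂ) • rm (Z c)
    rw [← rm_mul, ← rm_mul, ← mul_assoc, hZ3, rm_smul]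
  have hA : ∀ a' : M → ℚ, rm (∑ c, a' c • Z c) = (0 : ℂ) • 1 + ∑ c, (a' c : ℂ) • z c := by
    intro a'
    rw [rm_sum, zero_smul, zero_add]
    exact Finset.sum_congr rfl fun c _ => rm_smul _ _
  let s : Finset ℂ := Finset.univ.image fun t : Option (M × Bool) =>
    (0 : ℂ) + ev δ (fun c => (a c : ℂ)) t
  have hmem : ∀ t, (0 : ℂ) + ev δ (fun c => (a c : ℂ)) t ∈ s := fun t =>
    Finset.mem_image.2 ⟨t, Finset.mem_univ _, rfl⟩
  have hpe := pi_eig hzz hz3 hq hδ
  have hN : Polynomial.aeval (rm (∑ c, a c • Z c)) (Lagrange.nodal s id) = 0 := by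
    rw [hA]
    refine eq_of_pi (z := z) (δ := δ) (q := fun c => (q c : ℂ)) fun t => ?_
    rw [aeval_mul_eig' (hpe (fun c => (a c : ℂ)) 0 t), zero_mul]
    have h1 : (Lagrange.nodal s id).eval ((0 : ℂ) + ev δ (fun c => (a c : ℂ)) t) = 0 :=
      Lagrange.eval_nodal_at_node (v := id) (hmem t)
    rw [h1, zero_smul]
  let Q : Polynomial ℂ := Lagrange.interpolate s id (fun x => σ x)
  have hQ : ∀ x ∈ s, Q.eval x = σ x := fun x hx =>
    Lagrange.eval_interpolate_at_node (fun x => σ x) (Function.injective_id.injOn) hx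
  have hAQ : Polynomial.aeval (rm (∑ c, a c • Z c)) Q =
      rm (∑ c, (sgn σ (δ c) * a c) • Z c) := by
    rw [hA, hA]
    refine eq_of_pi (z := z) (δ := δ) (q := fun c => (q c : ℂ)) fun t => ?_
    rw [aeval_mul_eig' (hpe (fun c => (a c : ℂ)) 0 t),
      hpe (fun c => ((sgn σ (δ c) * a c : ℚ) : ℂ)), hQ _ (hmem t), map_add, map_zero]
    congr 2
    rcases t with _ | ⟨c, b⟩
    · exact map_zero σ
    · simp only [ev]
      rw [map_mul, map_mul, map_ratCast, ← sgn_smul (hq c) σ]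
      have e5 : σ (sg b) = sg b := by
        unfold sg
        split_ifs
        · exact map_one σ
        · rw [map_neg, map_one]
      rw [e5]
      push_cast
      ring
  obtain ⟨lam, hlam⟩ := exists_lam1
  refine hRC _ ha s hN ((σ : ℂ →+* ℂ) : ℂ →+ ℂ) Q hQ lam _ ?_
  rw [hAQ]
  ext i j
  rw [Matrix.map_apply, lamF_apply]
  change (((∑ c, (sgn σ (δ c) * a c) • Z c) (eb A i) j : ℚ) : ℂ) =
    ((lam (((∑ c, (sgn σ (δ c) * a c) • Z c) (eb A i) j : ℚ) : ℂ) : ℚ) : ℂ)
  rw [lam_rat hlam]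

include S in
/-- **Rigid derived algebra and elliptic centre.** -/
theorem det_of_CMS : Det A := by
  classical
  have := Fintype.ofFinite M
  intro 𝔥 hF hRC
  have hder : ∀ X ∈ der A.NA, X ∈ 𝔥 := by
    intro X hX
    have h1 : der A.NA ≤ 𝔥 := by
      unfold der
      rw [Submodule.span_le]
      rintro _ ⟨P, hP, Q, hQ, rfl⟩
      exact S.rig _ hF P hP Q hQ
    exact h1 hX
  have T : ∀ c : M, S.CMd c := fun c => (S.exists_CMd (S.tr c) (S.ne c) (S.memD c)).some
  -- the coordinates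
  have hco : ∀ X ∈ A.NA, ∀ c : M, ∃ a : ℚ, S.xi X c = a • (T c).D := fun X hX c =>
    comm_of_sp (T c).tr (S.xi_tz hX c) (T c).ne (S.lb_of_up (Cm_of_NA hX) (T c).mem)
  have hder0 : ∀ X ∈ der A.NA, S.xi X = 0 := by
    intro X hX
    unfold der at hX
    induction hX using Submodule.span_induction with
    | mem X hX =>
      obtain ⟨P, hP, Q, hQ, rfl⟩ := hX
      funext c
      rw [S.xi_lb (Cm_of_NA hP) (Cm_of_NA hQ)]
      obtain ⟨a, ha⟩ := hco P hP c
      obtain ⟨b, hb⟩ := hco Q hQ c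
      rw [ha, hb, lb_smul_left, lb_smul_right]
      unfold lb
      rw [sub_self, smul_zero, smul_zero]
      rfl
    | zero => rw [map_zero]
    | add a b _ _ ha hb => rw [map_add, ha, hb, add_zero]
    | smul c a _ ha => rw [map_smul, ha, smul_zero]
  -- the elements `Z`
  have hZ : ∀ c : M, ∃ Z ∈ A.NA, (∀ X ∈ A.NA, Z * X = X * Z) ∧
      S.xi Z = Pi.single c (T c).D := by
    intro c
    have hli : LinearIndependent ℚ (fun c : M => (T c).del) :=
      li_delta (fun c => (T c).del_ne) (fun c => ⟨_, (T c).del_sq⟩)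
        (fun c d hcd => (T c).indep (T d) hcd)
    have hli2 : LinearIndependent ℚ (fun c : M => (T c).ρ) := by
      rw [Fintype.linearIndependent_iff] at hli ⊢
      intro a ha c
      have h1 := hli (fun c => a c / (T c).q) (by
        have h2 := congrArg (fun r : ℝ => (-Complex.I) * (r : ℂ)) ha
        simp only [Complex.ofReal_sum, Complex.ofReal_zero, mul_zero, Finset.mul_sum] at h2
        rw [← h2]
        refine Finset.sum_congr rfl fun c _ => ?_
        have h3 := (T c).del_sq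
        have h4 := (T c).rho_ne
        have h5 := (T c).del_ne
        have h6 : (T c).del * (T c).ρ = Complex.I := by
          unfold PL.CMd.del
          rw [div_mul_cancel₀ _ h4]
        have h7 : ((T c).q : ℂ) ≠ 0 := by
          rw [← h3]
          exact pow_ne_zero 2 h5
        rw [Algebra.smul_def, Algebra.smul_def]
        change ((a c / (T c).q : ℚ) : ℂ) * (T c).del = (-Complex.I) * ((((a c : ℚ) : ℝ) *
          (T c).ρ : ℝ) : ℂ)
        push_cast
        rw [div_mul_eq_mul_div, div_eq_iff h7, ← h3]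
        have h8 : Complex.I * Complex.I = -1 := Complex.I_mul_I
        linear_combination (Complex.I * (a c : ℂ) * (T c).del) * h6 +
          ((a c : ℂ) * (T c).del) * h8)
      have h7 : ((T c).q : ℂ) ≠ 0 := by
        rw [← (T c).del_sq]
        exact pow_ne_zero 2 (T c).del_ne
      have h8 : (T c).q ≠ 0 := by exact_mod_cast h7
      exact (div_eq_zero_iff.1 (h1 c)).resolve_right h8
    obtain ⟨f, hf⟩ := exists_lin hli2 (Pi.single c (1 : ℚ))
    have hJ := A.MA_le_NA (A.J_mem f)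
    obtain ⟨Z, hZ, e, he, h1, h2⟩ := full_NA.dec hJ
    refine ⟨Z, hZ, h2, ?_⟩
    have h3 : S.xi Z = S.xi (A.cmpE f JJ) := by
      rw [h1, map_add, hder0 e he, add_zero]
    rw [h3]
    funext e
    rw [(T e).J f, hf e]
    by_cases hec : e = c
    · subst hec
      rw [Pi.single_eq_same, Pi.single_eq_same, one_smul]
    · rw [Pi.single_eq_of_ne hec, Pi.single_eq_of_ne hec, zero_smul]
  choose Z hZ1 hZc hZ2 using hZ
  have hZC : ∀ c, Cm (Z c) := fun c => Cm_of_NA (hZ1 c)
  have hZZ : ∀ c d, c ≠ d → Z c * Z d = 0 := by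
    intro c d hcd
    refine S.cen (Z c) (hZ1 c) (hZc c) (Z d) (hZC d) (S.xi_zero_of ?_)
    funext e
    rw [S.xi_mul (hZC c) (hZC d), hZ2, hZ2, Pi.zero_apply]
    by_cases hec : e = c
    · rw [Pi.single_eq_of_ne (i := d) (fun e' => hcd (hec.symm.trans e')), mul_zero]
    · rw [Pi.single_eq_of_ne hec, zero_mul]
  have hZ3 : ∀ c, Z c * Z c * Z c = (T c).q • Z c := by
    intro c
    have hY : Cm (Z c * Z c - (T c).q • (1 : Module.End ℚ A.H1)) :=
      Cm_sub (EP.Cm.mul (hZC c) (hZC c)) (Cm_smul Cm_one _)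
    have h1 := S.cen (Z c) (hZ1 c) (hZc c) _ hY (S.xi_zero_of (by
      rw [mul_sub, mul_smul_comm, mul_one, map_sub, map_smul, sub_eq_zero]
      funext e
      rw [S.xi_mul (hZC c) (EP.Cm.mul (hZC c) (hZC c)), S.xi_mul (hZC c) (hZC c),
        Pi.smul_apply, hZ2]
      by_cases hec : e = c
      · subst hec
        rw [Pi.single_eq_same, (T e).DD, mul_smul_comm, mul_one]
      · rw [Pi.single_eq_of_ne hec, zero_mul, smul_zero]))
    rw [mul_sub, mul_smul_comm, mul_one, sub_eq_zero] at h1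
    rw [mul_assoc]
    exact h1
  have hsum : ∀ (a : M → ℚ), S.xi (∑ c, a c • Z c) = fun e => a e • (T e).D := by
    intro a
    funext e
    rw [map_sum, Finset.sum_apply, Finset.sum_eq_single e]
    · rw [map_smul, Pi.smul_apply, hZ2, Pi.single_eq_same]
    · intro c _ hc
      rw [map_smul, Pi.smul_apply, hZ2, Pi.single_eq_of_ne (Ne.symm hc), smul_zero]
    · intro h
      exact absurd (Finset.mem_univ _) h
  have hNA : ∀ a : M → ℚ, (∑ c, a c • Z c) ∈ A.NA := fun a =>
    Submodule.sum_mem _ fun c _ => A.NA.smul_mem _ (hZ1 c)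
  have hNAc : ∀ a : M → ℚ, ∀ X ∈ A.NA, (∑ c, a c • Z c) * X = X * ∑ c, a c • Z c := by
    intro a X hX
    rw [Finset.sum_mul, Finset.mul_sum]
    exact Finset.sum_congr rfl fun c _ => by
      rw [smul_mul_assoc, mul_smul_comm, hZc c X hX]
  -- the subspace
  let U : Submodule ℚ ((M → ℚ) × ℚ) :=
    { carrier := {v | (∑ c, v.1 c • Z c) ∈ 𝔥}
      zero_mem' := by
        change (∑ c, (0 : ℚ) • Z c) ∈ 𝔥
        rw [Finset.sum_eq_zero fun c _ => zero_smul _ _]
        exact 𝔥.zero_mem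
      add_mem' := by
        intro v w hv hw
        change (∑ c, (v.1 c + w.1 c) • Z c) ∈ 𝔥
        have h1 : ∑ c, (v.1 c + w.1 c) • Z c = ∑ c, v.1 c • Z c + ∑ c, w.1 c • Z c := by
          rw [← Finset.sum_add_distrib]
          exact Finset.sum_congr rfl fun c _ => add_smul _ _ _
        rw [h1]
        exact 𝔥.add_mem hv hw
      smul_mem' := by
        intro t v hv
        change (∑ c, (t * v.1 c) • Z c) ∈ 𝔥
        have h1 : ∑ c, (t * v.1 c) • Z c = t • ∑ c, v.1 c • Z c := by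
          rw [Finset.smul_sum]
          exact Finset.sum_congr rfl fun c _ => mul_smul _ _ _
        rw [h1]
        exact 𝔥.smul_mem _ hv }
  have hmem : ∀ v, v ∈ U ↔ (∑ c, v.1 c • Z c) ∈ 𝔥 := fun _ => Iff.rfl
  have hcc : ∀ X ∈ A.NA, (∀ Y ∈ A.NA, X * Y = Y * X) → ∀ a : M → ℚ,
      (∀ c : M, S.xi X c = a c • (T c).D) → X = ∑ c, a c • Z c := by
    intro X hX hXc a ha
    refine S.cen' hX hXc (hNA a) (hNAc a) ?_
    rw [hsum]
    exact funext ha
  have hUtop : U = ⊤ := by
    refine chr_top (δ := fun c : M => (T c).del) (fun c => (T c).del_ne)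
      (fun c => ⟨_, (T c).del_sq⟩) (fun c => (T c).irr)
      (fun c d hcd => (T c).indep (T d) hcd) ?_ ?_ ?_
    · rintro σ v hv _
      exact RC_central hRC (Z := Z) (δ := fun c : M => (T c).del)
        (q := fun c => (T c).q) (fun c => (T c).del_sq)
        (fun c => (T c).irr) hZZ hZ3 (a := v.1) hv σ
    · refine ⟨(0, 1), ?_, one_ne_zero⟩
      rw [hmem]
      change (∑ c, (0 : ℚ) • Z c) ∈ 𝔥
      rw [Finset.sum_eq_zero fun c _ => zero_smul _ _]
      exact 𝔥.zero_mem
    · intro c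
      obtain ⟨X, hX, h1⟩ : ∃ X ∈ 𝔥, S.xi X c ≠ 0 := by
        by_contra hcon
        push Not at hcon
        have h1 : S.up c c EC.E ∈ A.EA := S.up_mem hF (by
          intro X hX
          rw [hcon X hX, mul_zero, zero_mul])
        exact EC.E_ne (S.line h1 v0_ne (by
          ext i
          fin_cases i <;> simp [EC.E, v0]))
      obtain ⟨Z', hZ', e, he, h2, h3⟩ := full_NA.dec (hF.le hX)
      have h4 := hder e he
      have h5 : X - e = Z' := sub_eq_iff_eq_add.2 h2
      have h6 : Z' ∈ 𝔥 := by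
        rw [← h5]
        exact 𝔥.sub_mem hX h4
      choose a ha using hco _ hZ'
      refine ⟨(a, 0), (hmem _).2 ?_, fun h0 => ?_⟩
      · rw [← hcc Z' hZ' h3 a ha]
        exact h6
      · change a c = 0 at h0
        have h7 := ha c
        rw [h0, zero_smul, ← h5, map_sub, Pi.sub_apply, hder0 e he, Pi.zero_apply,
          sub_zero] at h7
        exact h1 h7
  intro X hX
  obtain ⟨Z', hZ', e, he, h2, h3⟩ := full_NA.dec hX
  choose a ha using hco Z' hZ'
  have h6 : ((a, 0) : (M → ℚ) × ℚ) ∈ U := by rw [hUtop]; exact Submodule.mem_top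
  rw [h2, hcc Z' hZ' h3 a ha]
  exact 𝔥.add_mem ((hmem _).1 h6) (hder e he)

end Pool.Agent.R917.DT
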