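import Pool.Agent.R917.DT.Lift

set_option autoImplicit false
set_option linter.unusedSectionVars false
set_option linter.unusedSimpArgs false

/-!
# Factors of abelian varieties which are determined by their endomorphisms
-/

open Module Function TensorProduct Matrix

noncomputable section

namespace Pool.Agent.R917.DT

open Pool.Agent.Y102 Pool.Agent.W516.DR Pool.Agent.H204R3.GP Pool.Agent.W516.KC
  Pool.Agent.H204R3.SP Pool.Agent.TH119.MX Pool.Agent.R917.OM Pool.Agent.Y102.AbVar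
  Pool.Agent.R917.EC

/-! ### Rational rectangular matrices, in terms of rows -/

section Mat

variable {a b c : ℕ}

/-- the matrix in terms of rows -/
def rq (f : (Fin a → ℚ) →ₗ[ℚ] (Fin b → ℚ)) : Matrix (Fin a) (Fin b) ℂ :=
  ((LinearMap.toMatrix' f).map (algebraMap ℚ ℂ))ᵀ

theorem rq_comp (h : (Fin b → ℚ) →ₗ[ℚ] (Fin c → ℚ)) (f : (Fin a → ℚ) →ₗ[ℚ] (Fin b → ℚ)) :
    rq (h.comp f) = rq f * rq h := by
  unfold rq
  rw [LinearMap.toMatrix'_comp, Matrix.map_mul, Matrix.transpose_mul]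

theorem rq_id : rq (LinearMap.id : (Fin a → ℚ) →ₗ[ℚ] (Fin a → ℚ)) = 1 := by
  unfold rq
  rw [LinearMap.toMatrix'_id, Matrix.map_one _ (map_zero _) (map_one _), Matrix.transpose_one]

theorem lamF_rat (lam : ℂ →ₗ[ℚ] ℚ) (q : ℚ) (x : ℂ) :
    lamF lam ((q : ℂ) * x) = (q : ℂ) * lamF lam x := by
  rw [lamF_apply, lamF_apply]
  have h1 : (q : ℂ) * x = q • x := by rw [Algebra.smul_def]; simp
  rw [h1, map_smul, smul_eq_mul, Rat.cast_mul]

theorem rq_map_left (lam : ℂ →ₗ[ℚ] ℚ) (f : (Fin a → ℚ) →ₗ[ℚ] (Fin b → ℚ))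
    (N : Matrix (Fin b) (Fin c) ℂ) : (rq f * N).map (lamF lam) = rq f * N.map (lamF lam) := by
  ext i j
  rw [Matrix.map_apply, Matrix.mul_apply, Matrix.mul_apply, map_sum]
  refine Finset.sum_congr rfl fun k _ => ?_
  exact lamF_rat lam _ _

theorem rq_map_right (lam : ℂ →ₗ[ℚ] ℚ) (f : (Fin b → ℚ) →ₗ[ℚ] (Fin c → ℚ))
    (N : Matrix (Fin a) (Fin b) ℂ) : (N * rq f).map (lamF lam) = N.map (lamF lam) * rq f := by
  ext i j
  rw [Matrix.map_apply, Matrix.mul_apply, Matrix.mul_apply, map_sum]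
  refine Finset.sum_congr rfl fun k _ => ?_
  rw [mul_comm, Matrix.map_apply, mul_comm (lamF lam (N i k))]
  exact lamF_rat lam _ _

theorem aeval_inter {M : Matrix (Fin a) (Fin a) ℂ} {N : Matrix (Fin b) (Fin b) ℂ}
    {F : Matrix (Fin a) (Fin b) ℂ} (h : M * F = F * N) (P : Polynomial ℂ) :
    Polynomial.aeval M P * F = F * Polynomial.aeval N P := by
  induction P using Polynomial.induction_on with
  | C b =>
    rw [Polynomial.aeval_C, Polynomial.aeval_C, Algebra.algebraMap_eq_smul_one,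
      Algebra.algebraMap_eq_smul_one, Matrix.smul_mul, Matrix.mul_smul, Matrix.one_mul,
      Matrix.mul_one]
  | add p q hp hq => rw [map_add, map_add, Matrix.add_mul, Matrix.mul_add, hp, hq]
  | monomial n b ih =>
    rw [pow_succ, ← mul_assoc, map_mul (Polynomial.aeval M) _ Polynomial.X,
      map_mul (Polynomial.aeval N) _ Polynomial.X, Polynomial.aeval_X, Polynomial.aeval_X,
      Matrix.mul_assoc, h, ← Matrix.mul_assoc, ih, Matrix.mul_assoc]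

end Mat

variable {g g' : ℕ} {A : AbVar g} {B : AbVar g'}

/-- `f` is a homomorphism (up to isogeny) from `A` to `B`: it is given by a linear map of the
tangent spaces, and the pull backs of the algebraic differential forms are algebraic. -/
structure Hm (A : AbVar g) (B : AbVar g') (f : A.H1 →ₗ[ℚ] B.H1) : Prop where
  tangent : ∃ F : (Fin g → ℂ) →ₗ[ℂ] (Fin g' → ℂ), ∀ w, F (A.per w) = B.per (f w)
  algebraic : ∃ e : Fin g' ⊕ Fin g' → Fin g ⊕ Fin g → QBar,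
    ∀ i w, B.dR i (f w) = ∑ j, algebraMap QBar ℂ (e i j) * A.dR j w

/-- `A` is a direct factor of `B` up to isogeny. -/
structure Fac (A : AbVar g) (B : AbVar g') (f : A.H1 →ₗ[ℚ] B.H1) (p : B.H1 →ₗ[ℚ] A.H1) :
    Prop where
  hf : Hm A B f
  hp : Hm B A p
  pf : ∀ w, p (f w) = w

theorem drb_comp {p : B.H1 →ₗ[ℚ] A.H1} (hp : Hm B A p) {m : ℕ}
    {ξ : MultilinearMap ℚ (fun _ : Fin m × Fin 2 => A.H1) ℚ}
    (hξ : IsDeRhamBettiForm QBar A.dR tau m ξ) :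
    IsDeRhamBettiForm QBar B.dR tau m (ξ.compLinearMap fun _ => p) := by
  classical
  obtain ⟨r, hr⟩ := hξ
  obtain ⟨e, he⟩ := hp.algebraic
  refine ⟨fun J' => ∑ J, r J * ∏ l, e (J l) (J' l), fun v => ?_⟩
  have h1 : tau ^ m * algebraMap ℚ ℂ ((ξ.compLinearMap fun _ => p) v) =
      ∑ J, algebraMap QBar ℂ (r J) * ∏ l, A.dR (J l) (p (v l)) := hr fun l => p (v l)
  rw [h1]
  have h2 : ∀ J : Fin m × Fin 2 → Fin g ⊕ Fin g, ∏ l, A.dR (J l) (p (v l)) =
      ∑ J' : Fin m × Fin 2 → Fin g' ⊕ Fin g',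
        (∏ l, algebraMap QBar ℂ (e (J l) (J' l))) * ∏ l, B.dR (J' l) (v l) := by
    intro J
    rw [Finset.prod_congr rfl fun l _ => he (J l) (v l), Finset.prod_univ_sum,
      Fintype.piFinset_univ]
    exact Finset.sum_congr rfl fun J' _ => Finset.prod_mul_distrib
  have h3 : ∀ J : Fin m × Fin 2 → Fin g ⊕ Fin g,
      algebraMap QBar ℂ (r J) * ∏ l, A.dR (J l) (p (v l)) =
      ∑ J' : Fin m × Fin 2 → Fin g' ⊕ Fin g',
        algebraMap QBar ℂ (r J * ∏ l, e (J l) (J' l)) * ∏ l, B.dR (J' l) (v l) := by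
    intro J
    rw [h2, Finset.mul_sum]
    refine Finset.sum_congr rfl fun J' _ => ?_
    rw [map_mul, map_prod, mul_assoc]
  rw [Finset.sum_congr rfl fun J _ => h3 J, Finset.sum_comm]
  refine Finset.sum_congr rfl fun J' _ => ?_
  rw [map_sum, Finset.sum_mul]

theorem hodge_comp {p : B.H1 →ₗ[ℚ] A.H1} (hp : Hm B A p) {m : ℕ}
    {ψ : MultilinearMap ℚ (fun _ : Fin m × Fin 2 => A.H1) ℚ}
    (hψ : IsHodgeTensor (A.per : A.H1 →+ (Fin g → ℂ)) ψ) :
    IsHodgeTensor (B.per : B.H1 →+ (Fin g' → ℂ)) (ψ.compLinearMap fun _ => p) := by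
  obtain ⟨Ψ, h1, h2⟩ := hψ
  obtain ⟨F, hF⟩ := hp.tangent
  refine ⟨Ψ.compLinearMap fun _ => F.restrictScalars ℝ, fun v => ?_, fun z hz u => ?_⟩
  · change Ψ (fun l => F (B.per (v l))) = ψ (fun l => p (v l))
    rw [← h1]
    congr 1
    funext l
    exact hF (v l)
  · change Ψ (fun l => F (z • u l)) = Ψ (fun l => F (u l))
    rw [← h2 z hz fun l => F (u l)]
    congr 1
    funext l
    exact map_smul F z (u l)

/-- The restriction of the endomorphisms to the factor. -/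
def rs (f : A.H1 →ₗ[ℚ] B.H1) (p : B.H1 →ₗ[ℚ] A.H1) :
    Module.End ℚ B.H1 →ₗ[ℚ] Module.End ℚ A.H1 where
  toFun Y := p.comp (Y.comp f)
  map_add' Y Z := by rw [LinearMap.add_comp, LinearMap.comp_add]
  map_smul' c Y := by rw [LinearMap.smul_comp, LinearMap.comp_smul]; rfl

theorem rs_apply (f : A.H1 →ₗ[ℚ] B.H1) (p : B.H1 →ₗ[ℚ] A.H1) (Y : Module.End ℚ B.H1)
    (w : A.H1) : rs f p Y w = p (Y (f w)) := rfl

theorem cmp_bc (lam : ℂ →ₗ[ℚ] ℚ) (p : B.H1 →ₗ[ℚ] A.H1) (z : ℂ ⊗[ℚ] B.H1) :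
    Pool.Agent.W516.DR.cmp lam (p.baseChange ℂ z) = p (Pool.Agent.W516.DR.cmp lam z) := by
  induction z with
  | zero => rw [map_zero, map_zero, map_zero, map_zero]
  | add z z' h h' => rw [map_add, map_add, h, h', map_add, map_add]
  | tmul a w => rw [LinearMap.baseChange_tmul, cmp_tmul, cmp_tmul, map_smul]

theorem etaL_bc {p : B.H1 →ₗ[ℚ] A.H1} {e : Fin g ⊕ Fin g → Fin g' ⊕ Fin g' → QBar}
    (he : ∀ i w, A.dR i (p w) = ∑ j, algebraMap QBar ℂ (e i j) * B.dR j w)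
    (i : Fin g ⊕ Fin g) (z : ℂ ⊗[ℚ] B.H1) :
    etaL A.basis i (p.baseChange ℂ z) =
      ∑ j, algebraMap QBar ℂ (e i j) * etaL B.basis j z := by
  induction z with
  | zero => simp only [map_zero, mul_zero, Finset.sum_const_zero]
  | add z z' h h' =>
    simp only [map_add]
    rw [h, h', ← Finset.sum_add_distrib]
    exact Finset.sum_congr rfl fun j _ => by ring
  | tmul a w =>
    rw [LinearMap.baseChange_tmul, etaL_tmul, coe_basis, he, Finset.mul_sum]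
    refine Finset.sum_congr rfl fun j _ => ?_
    rw [etaL_tmul, coe_basis]
    ring

theorem cmp_hm {p : B.H1 →ₗ[ℚ] A.H1} {P : (Fin g' → ℂ) →ₗ[ℂ] (Fin g → ℂ)}
    (hP : ∀ w, P (B.per w) = A.per (p w)) (r : ℝ →ₗ[ℚ] ℚ) (x : Fin g' → ℂ) :
    A.cmp r (P x) = p (B.cmp r x) := by
  rw [B.eq_sum x]
  simp only [map_sum]
  refine Finset.sum_congr rfl fun j _ => ?_
  have h1 : P (B.lam.repr x j • B.per (B.bas j)) = B.lam.repr x j • A.per (p (B.bas j)) := by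
    rw [← hP]
    exact (P.restrictScalars ℝ).map_smul _ _
  rw [h1, A.cmp_smul_per, B.cmp_smul_per, map_smul]

namespace Fac

variable {f : A.H1 →ₗ[ℚ] B.H1} {p : B.H1 →ₗ[ℚ] A.H1}

theorem mem_EA (h : Fac A B f p) : (f.comp p : Module.End ℚ B.H1) ∈ B.EA := by
  rw [AbVar.mem_EA]
  obtain ⟨e, he⟩ := h.hf.algebraic
  obtain ⟨e', he'⟩ := h.hp.algebraic
  refine ⟨fun i l => ∑ j, e i j * e' j l, fun i w => ?_⟩
  rw [LinearMap.comp_apply, he]
  simp only [he', map_sum, map_mul, Finset.mul_sum, Finset.sum_mul]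
  rw [Finset.sum_comm]
  exact Finset.sum_congr rfl fun l _ => Finset.sum_congr rfl fun j _ => by ring

theorem fix (h : Fac A B f p) {Y : Module.End ℚ B.H1} (hY : Y ∈ B.NA) (w : A.H1) :
    f (p (Y (f w))) = Y (f w) := by
  have h1 := congrArg (fun T : Module.End ℚ B.H1 => T (f w)) (B.NA_comm hY h.mem_EA)
  change Y (f (p (f w))) = f (p (Y (f w))) at h1
  rw [h.pf] at h1
  exact h1.symm

theorem rs_NA (h : Fac A B f p) {Y : Module.End ℚ B.H1} (hY : Y ∈ B.NA) : rs f p Y ∈ A.NA := by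
  intro m φ h1 h2 v
  have h3 := hY m (φ.compLinearMap fun _ => p) (hodge_comp h.hp h1) (drb_comp h.hp h2)
    (fun l => f (v l))
  rw [← h3]
  refine Finset.sum_congr rfl fun k _ => ?_
  rw [MultilinearMap.compLinearMap_apply]
  congr 1
  funext l
  by_cases hl : l = k
  · subst hl
    rw [Function.update_self, Function.update_self]
    rfl
  · rw [Function.update_of_ne hl, Function.update_of_ne hl]
    exact (h.pf _).symm

theorem rs_mul (h : Fac A B f p) {Y Z : Module.End ℚ B.H1} (hZ : Z ∈ B.NA) :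
    rs f p (Y * Z) = rs f p Y * rs f p Z := by
  refine LinearMap.ext fun w => ?_
  change p (Y (Z (f w))) = p (Y (f (p (Z (f w)))))
  rw [h.fix hZ]

theorem rs_X0 (h : Fac A B f p) (D : Derivation QBar ℂ ℂ) (lam : ℂ →ₗ[ℚ] ℚ) :
    rs f p (X0 B.basis tau D lam) = X0 A.basis tau D lam := by
  refine LinearMap.ext fun w => ?_
  rw [rs_apply, X0_apply, X0_apply, map_sub, map_smul, h.pf, ← cmp_bc]
  congr 2
  refine ext_etaL A.basis fun i => ?_
  obtain ⟨e, he⟩ := h.hp.algebraic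
  rw [etaL_bc he, etaL_XX_one]
  simp only [etaL_XX_one]
  have h1 := he i (f w)
  rw [h.pf] at h1
  rw [coe_basis, coe_basis, h1, map_sum]
  refine Finset.sum_congr rfl fun j _ => ?_
  rw [Derivation.leibniz, Derivation.map_algebraMap, smul_zero, add_zero, smul_eq_mul]

theorem rs_J (h : Fac A B f p) (r : ℝ →ₗ[ℚ] ℚ) :
    rs f p (B.cmpE r AbVar.JJ) = A.cmpE r AbVar.JJ := by
  refine LinearMap.ext fun w => ?_
  obtain ⟨F, hF⟩ := h.hf.tangent
  obtain ⟨P, hP⟩ := h.hp.tangent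
  rw [rs_apply, AbVar.cmpE_apply, AbVar.cmpE_apply, ← cmp_hm hP, AbVar.JJ_apply, AbVar.JJ_apply,
    map_smul, hP, h.pf]

theorem rm_rs (Y : Module.End ℚ B.H1) : rm (rs f p Y) = rq f * rm Y * rq p := by
  have h1 : ∀ X : Module.End ℚ A.H1, rm X = rq (a := 2 * g) (b := 2 * g) X := fun X => by
    rw [rm_eq, toC_eq]
    rfl
  have h2 : ∀ X : Module.End ℚ B.H1, rm X = rq (a := 2 * g') (b := 2 * g') X := fun X => by
    rw [rm_eq, toC_eq]
    rfl
  rw [h1, h2, ← rq_comp, ← rq_comp]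
  rfl

theorem rq_one (h : Fac A B f p) : rq f * rq p = 1 := by
  rw [← rq_comp, ← rq_id]
  congr 1
  exact LinearMap.ext h.pf

theorem rm_inter (h : Fac A B f p) {Y : Module.End ℚ B.H1} (hY : Y ∈ B.NA) :
    rm (rs f p Y) * rq f = rq f * rm Y := by
  have h1 : ∀ X : Module.End ℚ A.H1, rm X = rq (a := 2 * g) (b := 2 * g) X := fun X => by
    rw [rm_eq, toC_eq]
    rfl
  have h2 : ∀ X : Module.End ℚ B.H1, rm X = rq (a := 2 * g') (b := 2 * g') X := fun X => by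
    rw [rm_eq, toC_eq]
    rfl
  rw [h1, h2, ← rq_comp, ← rq_comp]
  congr 1
  exact LinearMap.ext fun w => h.fix hY w

theorem aeval_rs (h : Fac A B f p) {Y : Module.End ℚ B.H1} (hY : Y ∈ B.NA) (P : Polynomial ℂ) :
    Polynomial.aeval (rm (rs f p Y)) P = rq f * Polynomial.aeval (rm Y) P * rq p := by
  rw [← aeval_inter (h.rm_inter hY) P, Matrix.mul_assoc, h.rq_one, Matrix.mul_one]

/-- the elements with restriction in the subspace -/
def qq (f : A.H1 →ₗ[ℚ] B.H1) (p : B.H1 →ₗ[ℚ] A.H1) (𝔥 : Submodule ℚ (Module.End ℚ A.H1)) :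
    Submodule ℚ (Module.End ℚ B.H1) := B.NA ⊓ 𝔥.comap (rs f p)

theorem qq_full (h : Fac A B f p) {𝔥 : Submodule ℚ (Module.End ℚ A.H1)}
    (hbr : ∀ X ∈ 𝔥, ∀ Y ∈ 𝔥, X * Y - Y * X ∈ 𝔥)
    (h0 : ∀ (D : Derivation QBar ℂ ℂ) (lam : ℂ →ₗ[ℚ] ℚ), X0 A.basis tau D lam ∈ 𝔥) :
    B.Full (qq f p 𝔥) := by
  refine full_of_X0 B (fun X hX => hX.1) (fun X hX Y hY => ⟨B.NA_bracket hX.1 hY.1, ?_⟩)
    fun D lam => ⟨B.LA_le_NA ?_, ?_⟩
  · change rs f p (X * Y - Y * X) ∈ 𝔥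
    rw [map_sub, h.rs_mul hY.1, h.rs_mul hX.1]
    exact hbr _ hX.2 _ hY.2
  · rw [AbVar.LA_eq]
    exact X0_mem B.basis AbVar.tau_ne D lam
  · change rs f p (X0 B.basis tau D lam) ∈ 𝔥
    rw [h.rs_X0]
    exact h0 D lam

theorem qq_RC (h : Fac A B f p) {𝔥 : Submodule ℚ (Module.End ℚ A.H1)} (hRC : RC 𝔥) :
    RC (qq f p 𝔥) := by
  intro Y hY s hs σ Q hQ lam Y' hY'
  refine ⟨NA_RC Y hY.1 s hs σ Q hQ lam Y' hY', ?_⟩
  change rs f p Y' ∈ 𝔥
  refine hRC (rs f p Y) hY.2 s ?_ σ Q hQ lam _ ?_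
  · rw [h.aeval_rs hY.1, hs, Matrix.mul_zero, Matrix.zero_mul]
  · rw [h.aeval_rs hY.1, rm_rs, rq_map_right, rq_map_left, hY']

end Fac

/-- The Lie algebra of the Hodge group is determined, at least the complex structure. -/
def DetJ (A : AbVar g) : Prop := ∀ 𝔥 : Submodule ℚ (Module.End ℚ A.H1), 𝔥 ≤ A.NA →
  (∀ X ∈ 𝔥, ∀ Y ∈ 𝔥, X * Y - Y * X ∈ 𝔥) →
  (∀ (D : Derivation QBar ℂ ℂ) (lam : ℂ →ₗ[ℚ] ℚ), X0 A.basis tau D lam ∈ 𝔥) → RC 𝔥 →
    ∀ r : ℝ →ₗ[ℚ] ℚ, A.cmpE r AbVar.JJ ∈ 𝔥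

/-- **Factors of determined abelian varieties.** -/
theorem detJ_of_fac {f : A.H1 →ₗ[ℚ] B.H1} {p : B.H1 →ₗ[ℚ] A.H1} (h : Fac A B f p)
    (hB : Det B) : DetJ A := by
  intro 𝔥 hle hbr h0 hRC r
  have h1 := hB _ (h.qq_full hbr h0) (h.qq_RC hRC) (B.MA_le_NA (B.J_mem r))
  have h2 : rs f p (B.cmpE r AbVar.JJ) ∈ 𝔥 := h1.2
  rwa [h.rs_J] at h2

end Pool.Agent.R917.DT
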