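import Pool.Agent.R917.DT.Rep

set_option autoImplicit false
set_option linter.unusedSectionVars false
set_option linter.unusedSimpArgs false

/-!
# The central elements of the Lie algebra of the Hodge group have imaginary eigenvalues
-/

open Module Function TensorProduct Matrix

noncomputable section

namespace Pool.Agent.R917.DT

open Pool.Agent.Y102 Pool.Agent.W516.DR Pool.Agent.H204R3.GP Pool.Agent.W516.KC
  Pool.Agent.H204R3.SP Pool.Agent.TH119.MX Pool.Agent.R917.OM Pool.Agent.Y102.AbVar
  Pool.Agent.R917.EC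

variable {g : ℕ} {A : AbVar g}

theorem aeval_transpose {m : ℕ} (N : Matrix (Fin m) (Fin m) ℂ) (P : Polynomial ℂ) :
    Polynomial.aeval Nᵀ P = (Polynomial.aeval N P)ᵀ := by
  rw [Polynomial.aeval_eq_sum_range, Polynomial.aeval_eq_sum_range, Matrix.transpose_sum]
  refine Finset.sum_congr rfl fun i _ => ?_
  rw [Matrix.transpose_smul, Matrix.transpose_pow]

theorem rm_eq (X : Module.End ℚ A.H1) : rm X = (toC X)ᵀ := by
  ext i j
  rfl

theorem aeval_real {M : (Fin g → ℂ) →ₗ[ℂ] (Fin g → ℂ)} (p : Polynomial ℝ) :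
    ∀ v, (Polynomial.aeval (M : Module.End ℂ (Fin g → ℂ)) (p.map (algebraMap ℝ ℂ))) v =
      (Polynomial.aeval (M.restrictScalars ℝ : Module.End ℝ (Fin g → ℂ)) p) v := by
  induction p using Polynomial.induction_on with
  | C a =>
    intro v
    rw [Polynomial.map_C, Polynomial.aeval_C, Polynomial.aeval_C]
    rfl
  | add p q hp hq =>
    intro v
    rw [Polynomial.map_add, map_add, map_add, LinearMap.add_apply, LinearMap.add_apply, hp, hq]
  | monomial n a ih =>
    intro v
    have e1 : (Polynomial.C a * Polynomial.X ^ (n + 1) : Polynomial ℝ) =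
        (Polynomial.C a * Polynomial.X ^ n) * Polynomial.X := by
      rw [pow_succ, mul_assoc]
    rw [e1, Polynomial.map_mul, map_mul, map_mul, Polynomial.map_X, Polynomial.aeval_X,
      Polynomial.aeval_X, Module.End.mul_apply, Module.End.mul_apply, ih]
    rfl

/-- **Central elements have imaginary eigenvalues and are diagonalizable.** -/
theorem imag_roots {X : Module.End ℚ A.H1} (hX : X ∈ A.NA) (hc : ∀ Y ∈ A.NA, X * Y = Y * X) :
    ∃ s : Finset ℂ, (∀ a ∈ s, a.re = 0) ∧
      Polynomial.aeval (rm X) (Lagrange.nodal s id) = 0 := by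
  classical
  obtain ⟨M, hM⟩ := A.hodgeEnd_of_comm fun Y hY => (hc Y (A.MA_le_NA hY)).symm
  have hs := A.NA_skew hX
  have hsk : ∀ u v, A.E (M u) v = -A.E u (M v) := by
    have h2 : A.E.comp (M.restrictScalars ℝ) = -(A.E.flip.comp (M.restrictScalars ℝ)).flip := by
      refine A.ext_per fun u => A.ext_per fun v => ?_
      change A.E (M (A.per u)) (A.per v) = -A.E (A.per u) (M (A.per v))
      rw [hM, hM, ← om_coe, ← om_coe, ← Rat.cast_neg]
      congr 1
      linear_combination hs u v
    intro u v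
    exact congrArg (fun F : (Fin g → ℂ) →ₗ[ℝ] (Fin g → ℂ) →ₗ[ℝ] ℝ => F u v) h2
  have hPF : ∀ u v, A.PF (M u) v = -A.PF u (M v) := fun u v => by
    rw [PF_apply, PF_apply, hsk, map_smul]
  have hdec : ∀ (μ : ℂ) (v : Fin g → ℂ), μ • v = μ.re • v + μ.im • (Complex.I • v) := by
    intro μ v
    funext i
    simp only [Pi.smul_apply, Pi.add_apply, smul_eq_mul, Complex.real_smul]
    conv_lhs => rw [← Complex.re_add_im μ]
    ring
  have him : ∀ (μ : ℂ) (v : Fin g → ℂ), v ≠ 0 → M v = μ • v → μ.re = 0 := by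
    intro μ v hv hMv
    have h1 : A.PF (M v) v = 0 := by
      have h2 := hPF v v
      rw [A.PF_symm v (M v)] at h2
      linarith
    rw [hMv, hdec, map_add, LinearMap.add_apply, map_smul, map_smul, LinearMap.smul_apply,
      LinearMap.smul_apply, smul_eq_mul, smul_eq_mul] at h1
    have h3 : A.PF (Complex.I • v) v = 0 := by
      rw [PF_apply, A.E_self]
    rw [h3, mul_zero, add_zero] at h1
    exact (mul_eq_zero.1 h1).resolve_right (A.PF_pos hv).ne'
  have hgen : ∀ (μ : ℂ) (w : Fin g → ℂ), M (M w - μ • w) = μ • (M w - μ • w) →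
      M w - μ • w = 0 := by
    intro μ w h1
    by_contra hne
    have h2 := him μ _ hne h1
    obtain ⟨u, hu⟩ : ∃ u, u = M w - μ • w := ⟨_, rfl⟩
    rw [← hu] at h1 hne
    have h3 : ∀ v, μ • v = μ.im • (Complex.I • v) := fun v => by
      rw [hdec, h2, zero_smul, zero_add]
    have h4 : A.PF u u = 0 := by
      have e0 : A.PF u u = A.PF (M w - μ • w) u := by rw [← hu]
      have e1 : A.PF w (μ.im • (Complex.I • u)) = μ.im * A.PF w (Complex.I • u) := by
        rw [(A.PF w).map_smul, smul_eq_mul]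
      have e2 : A.PF (μ.im • (Complex.I • w)) u = μ.im * A.PF (Complex.I • w) u := by
        rw [A.PF.map_smul, LinearMap.smul_apply, smul_eq_mul]
      rw [e0, map_sub, LinearMap.sub_apply, hPF, h1, h3, h3, e1, e2, PF_apply, PF_apply,
        (A.E_I w u).1, smul_smul, Complex.I_mul_I, neg_one_smul, map_neg]
      ring
    exact (A.PF_pos hne).ne' h4
  have hpow : ∀ (μ : ℂ) (k : ℕ) (v : Fin g → ℂ),
      (((M : Module.End ℂ (Fin g → ℂ)) - μ • 1) ^ (k + 1)) v = 0 → M v = μ • v := by
    intro μ k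
    induction k with
    | zero =>
      intro v hv
      rw [zero_add, pow_one] at hv
      exact sub_eq_zero.1 hv
    | succ k ih =>
      intro v hv
      rw [pow_succ, Module.End.mul_apply] at hv
      have h1 := ih _ hv
      exact sub_eq_zero.1 (hgen μ v h1)
  let s₀ : Finset ℂ := (Module.End.finite_hasEigenvalue (M : Module.End ℂ (Fin g → ℂ))).toFinset
  have hs₀ : ∀ a, a ∈ s₀ ↔ Module.End.HasEigenvalue (M : Module.End ℂ (Fin g → ℂ)) a := by
    intro a
    rw [Set.Finite.mem_toFinset]
    rfl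
  let s : Finset ℂ := s₀ ∪ s₀.image (starRingEnd ℂ)
  have him₀ : ∀ a ∈ s₀, a.re = 0 := by
    intro a ha
    obtain ⟨v, hv⟩ := ((hs₀ a).1 ha).exists_hasEigenvector
    exact him a v hv.2 hv.apply_eq_smul
  have hss : ∀ a ∈ s, (starRingEnd ℂ) a ∈ s := by
    intro a ha
    rcases Finset.mem_union.1 ha with ha | ha
    · exact Finset.mem_union_right _ (Finset.mem_image_of_mem _ ha)
    · obtain ⟨b, hb, rfl⟩ := Finset.mem_image.1 ha
      rw [Complex.conj_conj]
      exact Finset.mem_union_left _ hb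
  refine ⟨s, ?_, ?_⟩
  · intro a ha
    rcases Finset.mem_union.1 ha with ha | ha
    · exact him₀ a ha
    · obtain ⟨b, hb, rfl⟩ := Finset.mem_image.1 ha
      rw [Complex.conj_re]
      exact him₀ b hb
  -- the operator on the complex vector space
  obtain ⟨P, hP⟩ : ∃ P : Polynomial ℂ, P = Lagrange.nodal s id := ⟨_, rfl⟩
  rw [← hP]
  have hPM : Polynomial.aeval (M : Module.End ℂ (Fin g → ℂ)) P = 0 := by
    have h1 : (⊤ : Submodule ℂ (Fin g → ℂ)) ≤
        LinearMap.ker (Polynomial.aeval (M : Module.End ℂ (Fin g → ℂ)) P) := by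
      rw [← Module.End.iSup_maxGenEigenspace_eq_top (M : Module.End ℂ (Fin g → ℂ))]
      refine iSup_le fun μ v hv => ?_
      obtain ⟨k, hk⟩ := (Module.End.mem_maxGenEigenspace _ _ _).1 hv
      have h2 : M v = μ • v := by
        refine hpow μ k v ?_
        rw [pow_succ', Module.End.mul_apply, hk, map_zero]
      rw [LinearMap.mem_ker]
      by_cases hv0 : v = 0
      · rw [hv0, map_zero]
      · have h3 : Module.End.HasEigenvector (M : Module.End ℂ (Fin g → ℂ)) μ v :=
          ⟨Module.End.mem_eigenspace_iff.2 h2, hv0⟩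
        have h4 : μ ∈ s := Finset.mem_union_left _
          ((hs₀ μ).2 (Module.End.hasEigenvalue_of_hasEigenvector h3))
        have h5 : (Lagrange.nodal s id).eval μ = 0 := Lagrange.eval_nodal_at_node (v := id) h4
        rw [Module.End.aeval_apply_of_hasEigenvector h3, hP, h5, zero_smul]
    exact LinearMap.ker_eq_top.1 (top_le_iff.1 h1)
  -- the real polynomial
  have hreal : P ∈ Polynomial.lifts (algebraMap ℝ ℂ) := by
    rw [Polynomial.lifts_iff_coeff_lifts]
    intro n
    have h1 : P.map (starRingEnd ℂ) = P := by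
      rw [hP]
      unfold Lagrange.nodal
      rw [Polynomial.map_prod]
      simp only [Polynomial.map_sub, Polynomial.map_X, Polynomial.map_C, id]
      refine Finset.prod_bij (fun a _ => (starRingEnd ℂ) a) (fun a ha => hss a ha)
        (fun a _ b _ hab => (starRingEnd ℂ).injective hab) (fun b hb => ⟨_, hss b hb,
          Complex.conj_conj b⟩) (fun a _ => rfl)
    have h2 := congrArg (fun p : Polynomial ℂ => p.coeff n) h1
    simp only [Polynomial.coeff_map] at h2
    obtain ⟨r, hr⟩ := Complex.conj_eq_iff_real.1 h2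
    exact ⟨r, hr.symm⟩
  obtain ⟨Pr, hPr⟩ := (Polynomial.mem_lifts _).1 hreal
  have hR : Polynomial.aeval (M.restrictScalars ℝ : Module.End ℝ (Fin g → ℂ)) Pr = 0 := by
    refine LinearMap.ext fun v => ?_
    rw [← aeval_real, hPr, hPM]
    rfl
  obtain ⟨N, hN⟩ : ∃ N : Matrix (Fin (2 * g)) (Fin (2 * g)) ℝ,
    N = LinearMap.toMatrixAlgEquiv A.lam (M.restrictScalars ℝ : Module.End ℝ (Fin g → ℂ)) :=
    ⟨_, rfl⟩
  have hN0 : Polynomial.aeval N Pr = 0 := by
    have h1 := Polynomial.aeval_algHom_apply (LinearMap.toMatrixAlgEquiv A.lam)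
      (M.restrictScalars ℝ : Module.End ℝ (Fin g → ℂ)) Pr
    rw [hR, map_zero, ← hN] at h1
    exact h1
  have hNX : toC X = N.map (algebraMap ℝ ℂ) := by
    ext i j
    rw [Matrix.map_apply, hN]
    have h1 : LinearMap.toMatrixAlgEquiv A.lam (M.restrictScalars ℝ : Module.End ℝ (Fin g → ℂ))
        i j = ((X (Pi.single j 1) i : ℚ) : ℝ) := by
      rw [LinearMap.toMatrixAlgEquiv_apply]
      change A.lam.repr (M (A.lam j)) i = _
      rw [← per_bas, hM, repr_per]
      unfold bas
      rw [Pi.basisFun_apply]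
    rw [h1]
    change ((X (Pi.single j 1) i : ℚ) : ℂ) = (((X (Pi.single j 1) i : ℚ) : ℝ) : ℂ)
    rw [Complex.ofReal_ratCast]
  have hC : Polynomial.aeval (toC X) P = 0 := by
    have h1 := Polynomial.map_aeval_eq_aeval_map (φ := algebraMap ℝ ℂ)
      (ψ := (algebraMap ℝ ℂ).mapMatrix (m := Fin (2 * g))) (by
        ext r i j
        by_cases hij : i = j
        · subst hij
          simp [Matrix.algebraMap_eq_diagonal]
        · simp [Matrix.algebraMap_eq_diagonal, hij]) Pr N
    rw [hN0, map_zero, hPr] at h1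
    rw [hNX]
    exact h1.symm
  rw [rm_eq, aeval_transpose, hC, Matrix.transpose_zero]

end Pool.Agent.R917.DT
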