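import Pool.Agent.R917.DT.Na
import Pool.Agent.R917.BX.End

set_option autoImplicit false
set_option linter.unusedSectionVars false
set_option linter.unusedSimpArgs false

/-!
# Lifts of the elements of the Lie algebra of the Hodge group, when it is determined by the
endomorphisms
-/

open Module Function TensorProduct Matrix

noncomputable section

namespace Pool.Agent.R917.DT

open Pool.Agent.Y102 Pool.Agent.W516.DR Pool.Agent.H204R3.GP Pool.Agent.W516.KC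
  Pool.Agent.H204R3.SP Pool.Agent.TH119.MX Pool.Agent.R917.OM Pool.Agent.Y102.AbVar
  Pool.Agent.R917.EC

variable {g : ℕ} {A : AbVar g} {n s : ℕ} {d : Dt g n s}
  {H : Set (Matrix (RI g n s) (RI g n s) ℂ)}

/-- the real part, as an additive map -/
def reA : ℂ →+ ℂ := Complex.ofRealHom.toAddMonoidHom.comp Complex.reAddGroupHom

theorem reA_apply (z : ℂ) : reA z = (z.re : ℂ) := rfl

theorem lam_rat {lam : ℂ →ₗ[ℚ] ℚ} (hlam : lam 1 = 1) (r : ℚ) : lam (r : ℂ) = r := by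
  have h2 : (r : ℂ) = r • (1 : ℂ) := by rw [Algebra.smul_def]; simp
  rw [h2, map_smul, hlam, smul_eq_mul, mul_one]

/-- **The weight.** -/
theorem weight (hpt : PtM A d H) : ∃ L ∈ gg A n s H, L.1 = 0 ∧ L.2.1 = 1 := by
  have h : Lg (gg A n s H) d := gg_Lg hpt
  obtain ⟨Z, hZ, hr, hcom⟩ := exists_central h
  have hc : ∀ Y ∈ A.NA, Z.1 * Y = Y * Z.1 := fun Y hY => (h.full.comm Z.1 (by
    rintro _ ⟨L', hL', rfl⟩
    exact (hcom L' hL').symm) Y hY).symm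
  obtain ⟨t, ht, hN⟩ := imag_roots (h.na Z hZ) hc
  obtain ⟨lam, hlam⟩ := exists_lam1
  have hre : ∀ q : ℚ, q ≠ 0 → ((q : ℚ) : ℂ) ∉ t := by
    intro q hq hmem
    have h1 := ht _ hmem
    rw [Complex.ratCast_re] at h1
    exact hq (by exact_mod_cast h1)
  obtain ⟨L', h1, h2, h3⟩ := replica_gen hpt.grp hN (hre _ (neg_ne_zero.2 hr)) (hre _ hr) hr hZ.2
    reA (Q := 0) (fun a ha => by
      rw [Polynomial.eval_zero, reA_apply, ht a ha, Complex.ofReal_zero]) lam (X' := 0) (by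
      rw [rm_zero, map_zero]
      ext i j
      rw [Matrix.map_apply, Matrix.zero_apply, map_zero])
  have h4 : L'.2.1 = Z.2.1 := by
    rw [h3, reA_apply, Complex.ratCast_re, Complex.ofReal_ratCast, lam_rat hlam]
  have h5 : L' ∈ gg A n s H := ⟨by rw [h2]; exact A.NA.zero_mem, h1⟩
  refine ⟨(Z.2.1)⁻¹ • L', (gg A n s H).smul_mem _ h5, ?_, ?_⟩
  · rw [Prod.smul_fst, h2, smul_zero]
  · rw [Prod.smul_snd, Prod.smul_fst, h4, smul_eq_mul, inv_mul_cancel₀ hr]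

theorem exists_big (t : Finset ℂ) : ∃ q : ℚ, q ≠ 0 ∧ ((q : ℚ) : ℂ) ∉ t ∧ ((-q : ℚ) : ℂ) ∉ t := by
  obtain ⟨N, hN⟩ : ∃ N : ℕ, ∀ a ∈ t, ‖a‖ < N := by
    obtain ⟨N, hN⟩ := exists_nat_gt (∑ a ∈ t, ‖a‖)
    exact ⟨N, fun a ha => lt_of_le_of_lt
      (Finset.single_le_sum (f := fun a : ℂ => ‖a‖) (fun i _ => norm_nonneg i) ha) hN⟩
  have h1 : ∀ a : ℂ, ‖a‖ = (N : ℝ) + 1 → a ∉ t := by
    intro a ha hmem
    have h2 := hN a hmem
    rw [ha] at h2
    linarith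
  have h2 : ‖(((N : ℚ) + 1 : ℚ) : ℂ)‖ = (N : ℝ) + 1 := by
    have h3 : (((N : ℚ) + 1 : ℚ) : ℂ) = (((N + 1 : ℕ) : ℝ) : ℂ) := by push_cast; rfl
    rw [h3, Complex.norm_real, Real.norm_natCast]
    push_cast
    rfl
  refine ⟨(N : ℚ) + 1, by positivity, h1 _ h2, h1 _ ?_⟩
  rw [Rat.cast_neg, norm_neg, h2]

/-- **The image of the Lie algebra is closed under replicas.** -/
theorem aa_RC (hpt : PtM A d H) : RC (aa (gg A n s H)) := by
  rintro _ ⟨L, hL, rfl⟩ t ht σ Q hQ lam X' hX'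
  obtain ⟨W, hW, hW1, hW2⟩ := weight hpt
  obtain ⟨q, hq0, hq1, hq2⟩ := exists_big t
  let L₂ := L + (q - L.2.1) • W
  have hL₂ : L₂ ∈ gg A n s H := (gg A n s H).add_mem hL ((gg A n s H).smul_mem _ hW)
  have e1 : L₂.1 = L.1 := by
    change L.1 + (q - L.2.1) • W.1 = L.1
    rw [hW1, smul_zero, add_zero]
  have e2 : L₂.2.1 = q := by
    change L.2.1 + (q - L.2.1) * W.2.1 = q
    rw [hW2, mul_one]
    ring
  change Polynomial.aeval (rm L.1) (Lagrange.nodal t id) = 0 at ht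
  change rm X' = (Polynomial.aeval (rm L.1) Q).map (lamF lam) at hX'
  have hNA : X' ∈ A.NA := NA_RC L.1 hL.1 t ht σ Q hQ lam X' hX'
  rw [← e1] at ht hX'
  rw [← e2] at hq0 hq1 hq2
  obtain ⟨L', h1, h2, -⟩ := replica_gen hpt.grp ht hq2 hq1 hq0 hL₂.2 σ hQ lam hX'
  exact ⟨L', ⟨by rw [h2]; exact hNA, h1⟩, h2⟩

/-- The Lie algebra of the Hodge group has no proper subalgebra which acts semisimply, with the same
commutant, and is closed under replicas. -/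
def Det (A : AbVar g) : Prop := ∀ 𝔥, A.Full 𝔥 → RC 𝔥 → A.NA ≤ 𝔥

/-- **The lifts.** -/
theorem lifts (hdet : Det A) (hpt : PtM A d H) :
    (∀ X ∈ A.NA, ∃ L ∈ gg A n s H, L.1 = X ∧ L.2.1 = 0) ∧
      ∃ L ∈ gg A n s H, L.1 = 0 ∧ L.2.1 = 1 := by
  have h : Lg (gg A n s H) d := gg_Lg hpt
  obtain ⟨W, hW, hW1, hW2⟩ := weight hpt
  refine ⟨fun X hX => ?_, W, hW, hW1, hW2⟩
  obtain ⟨L, hL, h1⟩ := hdet _ h.full (aa_RC hpt) hX
  refine ⟨L - L.2.1 • W, (gg A n s H).sub_mem hL ((gg A n s H).smul_mem _ hW), ?_, ?_⟩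
  · change L.1 - L.2.1 • W.1 = X
    rw [hW1, smul_zero, sub_zero]
    exact h1
  · change L.2.1 - L.2.1 * W.2.1 = 0
    rw [hW2, mul_one, sub_self]

open Pool.Agent.R917.BX in
/-- **The Hodge structure of the 1-motive is in the Lie algebra of the group.** -/
theorem hodge_stab5 {A : AbVarG g} {d : Dt g n s} {H : Set (Matrix (RI g n s) (RI g n s) ℂ)}
    (hpt : PtM A.toAbVar d H) (hd : Good A d)
    {K₁ : IntermediateField ℚ ℂ} [FiniteDimensional ℚ K₁]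
    (hu : ∀ p (m : ℕ), IsRat A.toAbVar K₁ (m • pt d p)) (hdet : Det A.toAbVar) :
    (∀ k, Stab H k (XJ A.toAbVar d)) ∧ ∀ k, Stab H k (XW A.toAbVar d) := by
  have hLg := gg_Lg hpt
  obtain ⟨u⟩ := main2 hLg hu
  obtain ⟨hNA, hW⟩ := lifts hdet hpt
  constructor
  · intro k
    refine stab_of_comp fun lam => ?_
    rw [← mt_tJ]
    exact (u.tJ_mem hLg hNA lam).2 k
  · intro k
    refine stab_of_comp fun lam => ?_
    rw [← mt_tW]
    exact (u.tW_mem hLg hd hW lam).2 k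

end Pool.Agent.R917.DT
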