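import Pool.Agent.R917.DT.Cms

set_option autoImplicit false
set_option linter.unusedSectionVars false
set_option linter.unusedSimpArgs false

/-!
# Closure under replicas, in terms of matrices
-/

open Module Function TensorProduct Matrix

noncomputable section

namespace Pool.Agent.R917.DT

open Pool.Agent.Y102 Pool.Agent.W516.DR Pool.Agent.H204R3.GP Pool.Agent.W516.KC
  Pool.Agent.H204R3.SP Pool.Agent.TH119.MX Pool.Agent.R917.OM Pool.Agent.Y102.AbVar
  Pool.Agent.R917.EC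

variable {g : ℕ} {A : AbVar g}

theorem rm_cmpE (lam : ℂ →ₗ[ℚ] ℚ) (Y : Module.End ℚ A.H1) (Q : Polynomial ℂ) :
    rm (Pool.Agent.W516.DR.cmpE lam
      (Polynomial.aeval (Y.baseChange ℂ : Module.End ℂ (ℂ ⊗[ℚ] A.H1)) Q)) =
      (Polynomial.aeval (rm Y) Q).map (lamF lam) := by
  have h1 : LinearMap.toMatrixAlgEquiv (A.bas.baseChange ℂ)
      (Polynomial.aeval (Y.baseChange ℂ : Module.End ℂ (ℂ ⊗[ℚ] A.H1)) Q) =
      Polynomial.aeval (toC Y) Q := by
    rw [← toMatrix_bc, Polynomial.aeval_algHom_apply]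
  ext j i
  rw [rm_eq Y, aeval_transpose, Matrix.map_apply, Matrix.transpose_apply, ← h1,
    LinearMap.toMatrixAlgEquiv_apply, lamF_apply, Basis.baseChange_apply, ← repr_cmp,
    ← Pool.Agent.W516.DR.cmpE_apply]
  unfold bas
  rw [Pi.basisFun_apply]
  rfl

theorem matE_aeval (Y : Module.End ℚ A.H1) (Q : Polynomial ℂ) :
    matE (2 * g) (Polynomial.aeval (toC Y) Q) =
      Polynomial.aeval (Y.baseChange ℂ : Module.End ℂ (ℂ ⊗[ℚ] A.H1)) Q := by
  have h1 := Polynomial.aeval_algHom_apply (matE (2 * g)) (toC Y) Q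
  rw [matE_toC] at h1
  exact h1.symm

/-- Closure under replicas, in terms of matrices. -/
theorem rc_iff {𝔥 : Submodule ℚ (Module.End ℚ A.H1)} : RC 𝔥 ↔
    ∀ X ∈ 𝔥, ∀ (S : Finset ℂ) (σ : ℂ →+ ℂ) (Q : Polynomial ℂ),
      Polynomial.aeval (toC X) (∏ a ∈ S, (Polynomial.X - Polynomial.C a)) = 0 →
      (∀ a ∈ S, Q.eval a = σ a) →
      Polynomial.aeval (toC X) Q ∈ Submodule.span ℂ {Y | ∃ Z ∈ 𝔥, Y = toC Z} := by
  constructor
  · intro h X hX S σ Q hS hQ
    have h1 : Polynomial.aeval (X.baseChange ℂ : Module.End ℂ (ℂ ⊗[ℚ] A.H1)) Q ∈ cx 𝔥 := by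
      refine end_mem_span (fun P => P ∈ 𝔥) _ fun lam => ?_
      refine h X hX S ?_ σ Q hQ lam _ (rm_cmpE lam X Q)
      rw [rm_eq, aeval_transpose]
      exact Matrix.transpose_eq_zero.2 hS
    rw [← map_lie, ← matE_aeval] at h1
    obtain ⟨M, hM, hMX⟩ := h1
    rwa [← (matE (2 * g)).injective hMX]
  · intro h X hX S hS σ Q hQ lam X' hX'
    rw [cmpE_aeval hX']
    refine cmp_of_ext 𝔥 ?_ lam
    have h1 := h X hX S σ Q (by
      rw [rm_eq, aeval_transpose] at hS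
      exact Matrix.transpose_eq_zero.1 hS) hQ
    have h2 := Submodule.mem_map_of_mem (f := (matE (2 * g)).toLinearMap) h1
    rw [map_lie] at h2
    change matE (2 * g) (Polynomial.aeval (toC X) Q) ∈ cx 𝔥 at h2
    rwa [matE_aeval] at h2

end Pool.Agent.R917.DT
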