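import Pool.Agent.R917.DT.Imag

set_option autoImplicit false
set_option linter.unusedSectionVars false
set_option linter.unusedSimpArgs false

/-!
# The Lie algebra of the Hodge group is closed under replicas
-/

open Module Function TensorProduct Matrix

noncomputable section

namespace Pool.Agent.R917.DT

open Pool.Agent.Y102 Pool.Agent.W516.DR Pool.Agent.H204R3.GP Pool.Agent.W516.KC
  Pool.Agent.H204R3.SP Pool.Agent.TH119.MX Pool.Agent.R917.OM Pool.Agent.Y102.AbVar
  Pool.Agent.R917.EC

section alg

variable {R : Type} [Ring R] [Algebra ℂ R]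

theorem aeval_mul_eig' {M P : R} {a : ℂ} (h : M * P = a • P) (q : Polynomial ℂ) :
    Polynomial.aeval M q * P = q.eval a • P := by
  induction q using Polynomial.induction_on with
  | C b =>
    rw [Polynomial.aeval_C, Polynomial.eval_C, Algebra.algebraMap_eq_smul_one, smul_mul_assoc,
      one_mul]
  | add p q hp hq => rw [map_add, add_mul, hp, hq, Polynomial.eval_add, add_smul]
  | monomial n b ih =>
    rw [pow_succ, ← mul_assoc, map_mul, Polynomial.aeval_X, mul_assoc, h, mul_smul_comm, ih,
      smul_smul]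
    congr 1
    simp only [Polynomial.eval_mul, Polynomial.eval_X]
    ring

theorem lagrange_eig' {s : Finset ℂ} {M : R}
    (hM : Polynomial.aeval M (Lagrange.nodal s id) = 0) {a : ℂ} (ha : a ∈ s) :
    M * Polynomial.aeval M (Lagrange.basis s id a) =
      a • Polynomial.aeval M (Lagrange.basis s id a) := by
  have h1 : (Polynomial.X - Polynomial.C a) * Lagrange.basis s id a =
      Polynomial.C (Lagrange.nodalWeight s id a) * Lagrange.nodal s id := by
    rw [Lagrange.basis_eq_prod_sub_inv_mul_nodal_div ha, ← Lagrange.nodal_erase_eq_nodal_div ha,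
      Lagrange.nodal_eq_mul_nodal_erase ha]
    simp only [id]
    ring
  have h2 := congrArg (Polynomial.aeval M) h1
  rw [map_mul, map_mul, hM, mul_zero, map_sub, Polynomial.aeval_X, Polynomial.aeval_C, sub_mul,
    sub_eq_zero, Algebra.algebraMap_eq_smul_one, smul_mul_assoc, one_mul] at h2
  exact h2

end alg

/-- Replicas kill the same multilinear forms. -/
theorem kills_replica {V : Type} [AddCommGroup V] [Module ℂ V] {κ : Type} [Fintype κ]
    [DecidableEq κ] {T : Module.End ℂ V} {s : Finset ℂ}
    (hT : Polynomial.aeval T (Lagrange.nodal s id) = 0) (σ : ℂ →+ ℂ) {Q : Polynomial ℂ}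
    (hQ : ∀ a ∈ s, Q.eval a = σ a) {φ : MultilinearMap ℂ (fun _ : κ => V) ℂ} (h : Kills T φ) :
    Kills (Polynomial.aeval T Q) φ := by
  classical
  rcases s.eq_empty_or_nonempty with hs | hs
  · rw [hs] at hT
    have h1 : (1 : Module.End ℂ V) = 0 := by
      rw [← hT, Lagrange.nodal_empty, map_one]
    intro v
    refine Finset.sum_eq_zero fun k _ => ?_
    have h2 : (Polynomial.aeval T Q : Module.End ℂ V) = 0 := by
      rw [← one_mul (Polynomial.aeval T Q : Module.End ℂ V), h1, zero_mul]
    rw [h2, LinearMap.zero_apply]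
    exact φ.map_coord_zero k (Function.update_self _ _ _)
  let π : s → Module.End ℂ V := fun a => Polynomial.aeval T (Lagrange.basis s id (a : ℂ))
  have hπ1 : ∑ a, π a = 1 := by
    change ∑ a : s, Polynomial.aeval T (Lagrange.basis s id (a : ℂ)) = 1
    rw [← map_sum, Finset.sum_coe_sort s (fun a => Lagrange.basis s id a),
      Lagrange.sum_basis Function.injective_id.injOn hs, map_one]
  have hπT : ∀ (a : s) v, T (π a v) = (a : ℂ) • π a v := fun a v =>
    congrArg (fun S : Module.End ℂ V => S v) (lagrange_eig' hT a.2)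
  have hπQ : ∀ (a : s) v, (Polynomial.aeval T Q) (π a v) = σ a • π a v := fun a v => by
    have h1 := congrArg (fun S : Module.End ℂ V => S v) (aeval_mul_eig' (lagrange_eig' hT a.2) Q)
    rw [hQ _ a.2] at h1
    exact h1
  have hv : ∀ v, v = ∑ a, π a v := by
    intro v
    rw [← LinearMap.sum_apply, hπ1, Module.End.one_apply]
  -- the expansions
  have hker : ∀ (f : κ → s) (v : κ → V), (∑ k, (f k : ℂ)) * φ (fun l => π (f l) (v l)) = 0 := by
    intro f v
    have h1 := h (fun l => π (f l) (v l))
    rw [Finset.sum_mul, ← h1]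
    refine Finset.sum_congr rfl fun k _ => ?_
    rw [hπT, MultilinearMap.map_update_smul, Function.update_eq_self, smul_eq_mul]
  intro v
  have key : ∀ k, φ (Function.update v k ((Polynomial.aeval T Q) (v k))) =
      ∑ f : κ → s, σ (f k) * φ (fun l => π (f l) (v l)) := by
    intro k
    have h1 : Function.update v k ((Polynomial.aeval T Q) (v k)) = fun l =>
        ∑ a : s, (if l = k then σ (a : ℂ) else 1) • π a (v l) := by
      funext l
      by_cases hl : l = k
      · subst hl
        rw [Function.update_self]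
        conv_lhs => rw [hv (v l), map_sum]
        refine Finset.sum_congr rfl fun a _ => ?_
        rw [if_pos rfl, hπQ]
      · rw [Function.update_of_ne hl]
        conv_lhs => rw [hv (v l)]
        refine Finset.sum_congr rfl fun a _ => ?_
        rw [if_neg hl, one_smul]
    rw [h1, MultilinearMap.map_sum]
    refine Finset.sum_congr rfl fun f _ => ?_
    rw [MultilinearMap.map_smul_univ, smul_eq_mul]
    congr 1
    rw [Finset.prod_eq_single k]
    · rw [if_pos rfl]
    · intro l _ hl
      rw [if_neg hl]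
    · intro hk
      exact absurd (Finset.mem_univ k) hk
  rw [Finset.sum_congr rfl fun k _ => key k, Finset.sum_comm]
  refine Finset.sum_eq_zero fun f _ => ?_
  rw [← Finset.sum_mul, ← map_sum]
  rcases mul_eq_zero.1 (hker f v) with h1 | h1
  · rw [h1, map_zero, zero_mul]
  · rw [h1, mul_zero]

variable {g : ℕ} {A : AbVar g}

/-- The subspace is closed under the replicas of its diagonalizable elements. -/
def RC (𝔥 : Submodule ℚ (Module.End ℚ A.H1)) : Prop :=
  ∀ X ∈ 𝔥, ∀ s : Finset ℂ, Polynomial.aeval (rm X) (Lagrange.nodal s id) = 0 →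
    ∀ (σ : ℂ →+ ℂ) (Q : Polynomial ℂ), (∀ a ∈ s, Q.eval a = σ a) →
      ∀ (lam : ℂ →ₗ[ℚ] ℚ) (X' : Module.End ℚ A.H1),
        rm X' = (Polynomial.aeval (rm X) Q).map (lamF lam) → X' ∈ 𝔥

theorem toMatrix_bc (X : Module.End ℚ A.H1) :
    LinearMap.toMatrixAlgEquiv (A.bas.baseChange ℂ) (X.baseChange ℂ) = toC X := by
  ext i j
  rw [LinearMap.toMatrixAlgEquiv_apply, Basis.baseChange_apply, LinearMap.baseChange_tmul,
    Basis.baseChange_repr_tmul]
  unfold bas toC
  simp [Algebra.smul_def]

theorem repr_cmp (lam : ℂ →ₗ[ℚ] ℚ) (z : ℂ ⊗[ℚ] A.H1) (q : Fin (2 * g)) :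
    Pool.Agent.W516.DR.cmp lam z q = lam ((A.bas.baseChange ℂ).repr z q) := by
  induction z with
  | zero => simp only [map_zero, Finsupp.zero_apply]; rfl
  | add z z' h h' => simp only [map_add, Finsupp.add_apply, ← h, ← h']; rfl
  | tmul a w =>
    rw [cmp_tmul, Basis.baseChange_repr_tmul, map_smul, smul_eq_mul]
    unfold bas
    rw [Pi.basisFun_repr]
    change lam a * w q = _
    rw [mul_comm]

/-- The components of a polynomial in an endomorphism. -/
theorem cmpE_aeval {X X' : Module.End ℚ A.H1} {Q : Polynomial ℂ} {lam : ℂ →ₗ[ℚ] ℚ}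
    (h : rm X' = (Polynomial.aeval (rm X) Q).map (lamF lam)) :
    X' = Pool.Agent.W516.DR.cmpE lam
      (Polynomial.aeval (X.baseChange ℂ : Module.End ℂ (ℂ ⊗[ℚ] A.H1)) Q) := by
  have h1 : LinearMap.toMatrixAlgEquiv (A.bas.baseChange ℂ)
      (Polynomial.aeval (X.baseChange ℂ : Module.End ℂ (ℂ ⊗[ℚ] A.H1)) Q) =
      Polynomial.aeval (toC X) Q := by
    rw [← toMatrix_bc, Polynomial.aeval_algHom_apply]
  refine A.bas.ext fun j => ?_
  funext i
  have h2 := congrFun (congrFun h j) i
  rw [rm_eq X, aeval_transpose, Matrix.map_apply, Matrix.transpose_apply, ← h1,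
    LinearMap.toMatrixAlgEquiv_apply, lamF_apply] at h2
  have h3 : ((X' (A.bas j) i : ℚ) : ℂ) = rm X' j i := by
    unfold bas
    rw [Pi.basisFun_apply]
    rfl
  rw [← h3] at h2
  have h4 := Rat.cast_injective h2
  rw [h4, Pool.Agent.W516.DR.cmpE_apply, repr_cmp, Basis.baseChange_apply]

/-- **The Lie algebra of the Hodge group is closed under replicas.** -/
theorem NA_RC : RC A.NA := by
  intro X hX s hs σ Q hQ lam X' hX'
  rw [cmpE_aeval hX']
  intro m φ h1 h2
  have h3 := hX m φ h1 h2
  have hT : Polynomial.aeval (X.baseChange ℂ : Module.End ℂ (ℂ ⊗[ℚ] A.H1))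
      (Lagrange.nodal s id) = 0 := by
    apply (LinearMap.toMatrixAlgEquiv (A.bas.baseChange ℂ)).injective
    rw [← Polynomial.aeval_algHom_apply, toMatrix_bc, map_zero]
    rw [rm_eq, aeval_transpose] at hs
    exact Matrix.transpose_eq_zero.1 hs
  refine (kills_bcm_iff A.bas φ _).1 (kills_replica hT σ hQ ?_) lam
  rw [kills_bcm_iff]
  intro mu
  have h4 : Pool.Agent.W516.DR.cmpE mu (X.baseChange ℂ) = mu 1 • X := by
    refine LinearMap.ext fun w => ?_
    rw [Pool.Agent.W516.DR.cmpE_apply, LinearMap.baseChange_tmul, cmp_tmul]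
    rfl
  rw [h4]
  exact A.NA.smul_mem (mu 1) hX m φ h1 h2

end Pool.Agent.R917.DT
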