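import Pool.Agent.R917.DT.Lift

set_option autoImplicit false
set_option linter.unusedSectionVars false
set_option linter.unusedSimpArgs false

/-!
# Determined abelian varieties and algebraic groups which contain the periods: the pure case
-/

open Module Function TensorProduct Matrix

noncomputable section

namespace Pool.Agent.R917.DT

open Pool.Agent.Y102 Pool.Agent.W516.DR Pool.Agent.H204R3.GP Pool.Agent.W516.KC
  Pool.Agent.H204R3.SP Pool.Agent.TH119.MX Pool.Agent.R917.OM Pool.Agent.Y102.AbVar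
  Pool.Agent.R917.EC

variable {g : ℕ} {A : AbVar g} {H : Set (Matrix (Fin (2 * g)) (Fin (2 * g)) ℂ)}

theorem mem_lieQ {X : Module.End ℚ A.H1} : X ∈ lieQ H ↔ ∀ k, Stab H k (rm X) := by
  rw [rm_eq]
  exact Iff.rfl

/-- Replicas of the elements of the Lie algebra of the group. -/
theorem lieQ_replica (hH : AlgGrp QQ H) {X : Module.End ℚ A.H1} (hX : X ∈ lieQ H) {s : Finset ℂ}
    (hs : Polynomial.aeval (rm X) (Lagrange.nodal s id) = 0) (σ : ℂ →+ ℂ) {Q : Polynomial ℂ}
    (hQ : ∀ a ∈ s, Q.eval a = σ a) (lam : ℂ →ₗ[ℚ] ℚ) {X' : Module.End ℚ A.H1}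
    (hX' : rm X' = (Polynomial.aeval (rm X) Q).map (lamF lam)) : X' ∈ lieQ H := by
  rw [mem_lieQ, hX']
  intro k
  refine hH.stab_map (lamF lam) ?_
  rcases s.eq_empty_or_nonempty with h0 | h0
  · have h1 : (1 : Matrix (Fin (2 * g)) (Fin (2 * g)) ℂ) = 0 := by
      rw [← hs, h0, Lagrange.nodal_empty, map_one]
    have h2 : Polynomial.aeval (rm X) Q = 0 := by
      rw [← one_mul (Polynomial.aeval (rm X) Q), h1, zero_mul]
    rw [h2]
    exact Stab.zero
  · exact stab_aeval h0 hs σ hQ (mem_lieQ.1 hX k)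

/-- The scalars are in the Lie algebra of the group. -/
theorem one_mem (h : Pt A H) : (1 : Module.End ℚ A.H1) ∈ lieQ H := by
  classical
  obtain ⟨D, lam, hne⟩ := exists_der
  obtain ⟨c, hc⟩ : ∃ c : ℚ, c = lam (D tau / (2 * tau)) := ⟨_, rfl⟩
  rw [← hc] at hne
  have h1 : X0 A.basis tau D lam ∈ qq A H := by
    refine ⟨A.LA_le_NA ?_, c, ?_⟩
    · rw [AbVar.LA_eq]
      exact X0_mem A.basis AbVar.tau_ne D lam
    · rw [hc, X0_eq D lam]
      exact h.cmp_mem D lam
  have h2 : X0 A.basis tau D lam + c • (1 : Module.End ℚ A.H1) ∈ lieQ H := by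
    rw [hc, X0_eq D lam]
    exact h.cmp_mem D lam
  obtain ⟨Z, hZ, e, he, h3, h4⟩ := h.full.dec h1
  have h5 : e ∈ lieQ H := by
    have h6 : der (qq A H) ≤ lieQ H := by
      unfold der
      rw [Submodule.span_le]
      rintro _ ⟨X, hX, Y, hY, rfl⟩
      exact qq_br hX hY
    exact h6 he
  have h7 : Z + c • (1 : Module.End ℚ A.H1) ∈ lieQ H := by
    have h8 := (lieQ H).sub_mem h2 h5
    rw [h3] at h8
    convert h8 using 1
    abel
  have hZc : ∀ Y ∈ A.NA, Z * Y = Y * Z := fun Y hY =>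
    (h.full.comm Z (fun X hX => (h4 X hX).symm) Y hY).symm
  obtain ⟨t, ht, hN⟩ := imag_roots hZ.1 hZc
  obtain ⟨mu, hmu⟩ := exists_lam1
  have e1 : rm (Z + c • (1 : Module.End ℚ A.H1)) = rm Z + (c : ℂ) • 1 := by
    rw [rm_add, rm_smul, rm_one]
  let s : Finset ℂ := t.image fun a => a + (c : ℂ)
  have hs : Polynomial.aeval (rm (Z + c • (1 : Module.End ℚ A.H1))) (Lagrange.nodal s id) = 0 := by
    rw [e1, aeval_shift]
    have h8 : Polynomial.aeval (rm Z) ((Lagrange.nodal s id).comp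
        (Polynomial.X + Polynomial.C (c : ℂ))) = Polynomial.aeval (rm Z) (0 : Polynomial ℂ) := by
      refine aeval_congr hN fun a ha => ?_
      rw [Polynomial.eval_comp, Polynomial.eval_add, Polynomial.eval_X, Polynomial.eval_C,
        Polynomial.eval_zero]
      exact Lagrange.eval_nodal_at_node (v := id) (i := a + (c : ℂ))
        (Finset.mem_image_of_mem (fun a => a + (c : ℂ)) ha)
    rw [h8, map_zero]
  have h9 : c • (1 : Module.End ℚ A.H1) ∈ lieQ H := by
    refine lieQ_replica h.grp h7 hs reA (Q := Polynomial.C (c : ℂ)) (fun a ha => ?_) mu ?_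
    · obtain ⟨b, hb, rfl⟩ := Finset.mem_image.1 ha
      rw [Polynomial.eval_C, reA_apply, Complex.add_re, ht b hb, zero_add, Complex.ratCast_re,
        Complex.ofReal_ratCast]
    · rw [Polynomial.aeval_C, Algebra.algebraMap_eq_smul_one, rm_smul, rm_one]
      ext i j
      rw [Matrix.map_apply, lamF_apply, Matrix.smul_apply, Matrix.one_apply]
      by_cases hij : i = j
      · rw [if_pos hij, smul_eq_mul, mul_one, lam_rat hmu]
      · rw [if_neg hij, smul_zero, map_zero, Rat.cast_zero]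
  have h10 := (lieQ H).smul_mem c⁻¹ h9
  rwa [smul_smul, inv_mul_cancel₀ hne, one_smul] at h10

theorem qq_le (h : Pt A H) : qq A H ≤ lieQ H := by
  rintro X ⟨-, c, hc⟩
  have h1 := (lieQ H).sub_mem hc ((lieQ H).smul_mem c (one_mem h))
  rwa [add_sub_cancel_right] at h1

theorem qq_RC (h : Pt A H) : RC (qq A H) := by
  intro X hX s hs σ Q hQ lam X' hX'
  refine ⟨NA_RC X hX.1 s hs σ Q hQ lam X' hX', 0, ?_⟩
  rw [zero_smul, add_zero]
  exact lieQ_replica h.grp (qq_le h hX) hs σ hQ lam hX'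

/-- **The pure case.** -/
theorem pure_lie (hdet : Det A) (h : Pt A H) :
    A.NA ≤ lieQ H ∧ (1 : Module.End ℚ A.H1) ∈ lieQ H :=
  ⟨(hdet _ h.full (qq_RC h)).trans (qq_le h), one_mem h⟩

end Pool.Agent.R917.DT
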