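import Pool.Agent.R917.DT.Pure
import Pool.Agent.R917.DT.Fct

set_option autoImplicit false
set_option linter.unusedSectionVars false
set_option linter.unusedSimpArgs false

/-!
# Factors of determined abelian varieties and algebraic groups which contain the periods: the pure
case
-/

open Module Function TensorProduct Matrix

noncomputable section

namespace Pool.Agent.R917.DT

open Pool.Agent.Y102 Pool.Agent.W516.DR Pool.Agent.H204R3.GP Pool.Agent.W516.KC
  Pool.Agent.H204R3.SP Pool.Agent.TH119.MX Pool.Agent.R917.OM Pool.Agent.Y102.AbVar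
  Pool.Agent.R917.EC

variable {g : ℕ} {A : AbVar g} {H : Set (Matrix (Fin (2 * g)) (Fin (2 * g)) ℂ)}

theorem X0_mem_qq (h : Pt A H) (D : Derivation QBar ℂ ℂ) (lam : ℂ →ₗ[ℚ] ℚ) :
    X0 A.basis tau D lam ∈ qq A H := by
  refine ⟨A.LA_le_NA ?_, lam (D tau / (2 * tau)), ?_⟩
  · rw [AbVar.LA_eq]
    exact X0_mem A.basis AbVar.tau_ne D lam
  · rw [X0_eq D lam]
    exact h.cmp_mem D lam

/-- The complex structure is in the Lie algebra of the group. -/
theorem pure_J (hdet : DetJ A) (h : Pt A H) (r : ℝ →ₗ[ℚ] ℚ) : A.cmpE r AbVar.JJ ∈ lieQ H :=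
  qq_le h (hdet (qq A H) h.full.le h.full.br (X0_mem_qq h) (qq_RC h) r)

theorem stab_I' (h : ∀ r : ℝ →ₗ[ℚ] ℚ, (A.cmpE r AbVar.JJ : Module.End ℚ A.H1) ∈ lieQ H) (d : ℕ) :
    Stab H d (hm A Complex.I) := by
  classical
  obtain ⟨s, hs⟩ := exists_coords (fun p : Fin (2 * g) × Fin (2 * g) =>
    A.lam.repr (Complex.I • A.lam p.1) p.2)
  let f : Basis.ofVectorSpaceIndex ℚ ℝ → (ℝ →ₗ[ℚ] ℚ) := fun k => (Basis.ofVectorSpace ℚ ℝ).coord k
  have h1 : hm A Complex.I = ∑ k ∈ s, ((Basis.ofVectorSpace ℚ ℝ k : ℝ) : ℂ) •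
      (toC (A.cmpE (f k) AbVar.JJ))ᵀ := by
    ext i j
    rw [Matrix.sum_apply, hm_apply]
    have h2 := hs (i, j)
    rw [h2]
    push_cast
    refine Finset.sum_congr rfl fun k _ => ?_
    rw [Matrix.smul_apply, Matrix.transpose_apply, smul_eq_mul, mul_comm]
    congr 1
    unfold toC
    rw [Matrix.of_apply, AbVar.cmpE_apply]
    have h3 : A.per (Pi.single i 1) = A.lam i := by
      have h4 := A.per_bas i
      unfold AbVar.bas at h4
      rwa [Pi.basisFun_apply] at h4
    rw [h3]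
    rfl
  rw [h1]
  exact stab_sum s _ fun k _ => (h (f k) d).smul _

/-- The group contains the image of the Deligne torus. -/
theorem hm_mem' (hdet : DetJ A) (h : Pt A H) {z : ℂ} (hz : z ≠ 0) : hm A z ∈ H := by
  rw [← Complex.exp_log hz, hm_exp]
  refine exp_mem h.grp fun d => ?_
  rw [hm_eq]
  refine Stab.add (Stab.smul _ ?_) ((stab_I' (pure_J hdet h) d).smul _)
  have h2 := one_mem h d
  rw [toC_one, Matrix.transpose_one] at h2
  exact h2

end Pool.Agent.R917.DT
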