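import Pool.Agent.R917.EC.Blk

set_option autoImplicit false
set_option linter.unusedSectionVars false
set_option linter.unusedSimpArgs false

/-!
# Replicas of the elements of the Lie algebra of the parabolic group: the general case
-/

open Module Function TensorProduct Matrix

noncomputable section

namespace Pool.Agent.R917.DT

open Pool.Agent.Y102 Pool.Agent.W516.DR Pool.Agent.H204R3.GP Pool.Agent.W516.KC
  Pool.Agent.H204R3.SP Pool.Agent.TH119.MX Pool.Agent.R917.OM Pool.Agent.Y102.AbVar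
  Pool.Agent.R917.EC

section congr

variable {R : Type} [Ring R] [Algebra ℂ R]

theorem nodal_dvd {s : Finset ℂ} {P : Polynomial ℂ} (h : ∀ a ∈ s, P.eval a = 0) :
    Lagrange.nodal s id ∣ P := by
  unfold Lagrange.nodal
  refine Finset.prod_dvd_of_coprime (fun a _ b _ hab => ?_) (fun a ha => ?_)
  · exact Polynomial.pairwise_coprime_X_sub_C Function.injective_id hab
  · exact Polynomial.dvd_iff_isRoot.2 (h a ha)

/-- Polynomials with the same values on the spectrum give the same operator. -/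
theorem aeval_congr {M : R} {s : Finset ℂ} (hM : Polynomial.aeval M (Lagrange.nodal s id) = 0)
    {P Q : Polynomial ℂ} (h : ∀ a ∈ s, P.eval a = Q.eval a) :
    Polynomial.aeval M P = Polynomial.aeval M Q := by
  obtain ⟨C, hC⟩ := nodal_dvd (s := s) (P := P - Q) (fun a ha => by
    rw [Polynomial.eval_sub, h a ha, sub_self])
  rw [← sub_eq_zero, ← map_sub, hC, map_mul, hM, zero_mul]

theorem aeval_mono {M : R} {s t : Finset ℂ} (hM : Polynomial.aeval M (Lagrange.nodal s id) = 0)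
    (h : s ⊆ t) : Polynomial.aeval M (Lagrange.nodal t id) = 0 := by
  obtain ⟨C, hC⟩ := nodal_dvd (s := s) (P := Lagrange.nodal t id) (fun a ha =>
    Lagrange.eval_nodal_at_node (v := id) (h ha))
  rw [hC, map_mul, hM, zero_mul]

end congr

section Tup

variable {g : ℕ} {A : AbVar g} {n s : ℕ}

/-- The tuple of a block triangular matrix. -/
theorem exists_tup' {Y : Matrix (RI g n s) (RI g n s) ℂ} {X : Module.End ℚ A.H1}
    {α : Matrix (Fin (2 * g)) (Fin (2 * g)) ℂ} {ρ : ℂ}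
    (hY : Blk Y (α + ρ • 1) (2 * ρ) 0) {lam : ℂ →ₗ[ℚ] ℚ}
    (hX : rm X = α.map (lamF lam)) :
    ∃ L : Tup A n s, L.1 = X ∧ L.2.1 = lam ρ ∧ OM.mt L = Y.map (lamF lam) := by
  have h1 : ∀ l : Fin s, ∃ u : A.H1, ∀ j, A.om u (eb A j) =
      lam (Y (Sum.inl j) (Sum.inr (Sum.inl l))) := by
    intro l
    obtain ⟨u, hu⟩ := A.om_surj (f := ∑ j, lam (Y (Sum.inl j) (Sum.inr (Sum.inl l))) •
      (LinearMap.proj j : (Fin (2 * g) → ℚ) →ₗ[ℚ] ℚ))
    refine ⟨u, fun j => ?_⟩
    rw [hu]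
    change (∑ k, lam (Y (Sum.inl k) (Sum.inr (Sum.inl l))) •
      (LinearMap.proj k : (Fin (2 * g) → ℚ) →ₗ[ℚ] ℚ)) (Pi.single j 1 : Fin (2 * g) → ℚ) = _
    rw [LinearMap.sum_apply, Finset.sum_eq_single j]
    · simp
    · intro k _ hk
      simp [hk]
    · intro h
      exact absurd (Finset.mem_univ j) h
  choose u hu using h1
  refine ⟨(X, lam ρ, Sum.elim (fun i j => lam (Y (Sum.inr (Sum.inr i)) (Sum.inl j))) u,
    fun i l => lam (Y (Sum.inr (Sum.inr i)) (Sum.inr (Sum.inl l)))), rfl, rfl, ?_⟩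
  ext x y
  rw [Matrix.map_apply]
  rcases x with j | l | i <;> rcases y with j' | l' | i'
  · rw [hY.jj]
    change algebraMap ℚ ℂ ((X (eb A j) + lam ρ • eb A j) j') = _
    have h2 := congrFun (congrFun hX j) j'
    rw [Matrix.map_apply] at h2
    have h3 : lamF lam ((α + ρ • (1 : Matrix (Fin (2 * g)) (Fin (2 * g)) ℂ)) j j') =
        lamF lam (α j j') + lamF lam ((ρ • (1 : Matrix (Fin (2 * g)) (Fin (2 * g)) ℂ)) j j') := by
      rw [← map_add]
      rfl
    rw [h3, ← h2]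
    change algebraMap ℚ ℂ (X (eb A j) j' + lam ρ * (eb A j : Fin (2 * g) → ℚ) j') = _
    rw [map_add]
    congr 1
    rw [Matrix.smul_apply, Matrix.one_apply]
    unfold eb
    rw [Pi.single_apply]
    by_cases hj : j = j'
    · subst hj
      rw [if_pos rfl, if_pos rfl, mul_one, smul_eq_mul, mul_one]
      rfl
    · rw [if_neg (fun h => hj h.symm), if_neg hj, mul_zero, smul_zero, map_zero, map_zero]
  · change algebraMap ℚ ℂ (A.om (u l') (eb A j)) = _
    rw [hu]
    rfl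
  · rw [hY.ji, map_zero]
    exact map_zero (algebraMap ℚ ℂ)
  · rw [hY.lj, map_zero]
    exact map_zero (algebraMap ℚ ℂ)
  · rw [hY.ll]
    change algebraMap ℚ ℂ (if l = l' then 2 * lam ρ else 0) = _
    split_ifs
    · have h2 : lam (2 * ρ) = 2 * lam ρ := by
        have h3 : (2 : ℂ) * ρ = (2 : ℚ) • ρ := by
          rw [Algebra.smul_def]
          simp
        rw [h3, map_smul, smul_eq_mul]
      rw [lamF_apply, h2]
      rfl
    · rw [map_zero, map_zero]
  · rw [hY.li, map_zero]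
    exact map_zero (algebraMap ℚ ℂ)
  · rfl
  · rfl
  · rw [hY.ii, ite_self, map_zero]
    exact map_zero (algebraMap ℚ ℂ)

theorem aeval_shift {R : Type} [Ring R] [Algebra ℂ R] (M : R) (r : ℂ) (P : Polynomial ℂ) :
    Polynomial.aeval (M + r • 1) P = Polynomial.aeval M (P.comp (Polynomial.X + Polynomial.C r)) := by
  rw [Polynomial.aeval_comp, map_add, Polynomial.aeval_X, Polynomial.aeval_C,
    Algebra.algebraMap_eq_smul_one]

/-- **Replicas of tuples.** -/
theorem replica_gen {H : Set (Matrix (RI g n s) (RI g n s) ℂ)} (hH : AlgGrp QQ H)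
    {L : Tup A n s} {sH : Finset ℂ}
    (hZ : Polynomial.aeval (rm L.1) (Lagrange.nodal sH id) = 0)
    (h0 : ((-L.2.1 : ℚ) : ℂ) ∉ sH) (h1 : ((L.2.1 : ℚ) : ℂ) ∉ sH) (hr : L.2.1 ≠ 0)
    (hS : ∀ k, Stab H k (OM.mt L)) (σ : ℂ →+ ℂ) {Q : Polynomial ℂ}
    (hQ : ∀ a ∈ sH, Q.eval a = σ a) (lam : ℂ →ₗ[ℚ] ℚ) {X' : Module.End ℚ A.H1}
    (hX' : rm X' = (Polynomial.aeval (rm L.1) Q).map (lamF lam)) :
    ∃ L' : Tup A n s, (∀ k, Stab H k (OM.mt L')) ∧ L'.1 = X' ∧
      L'.2.1 = lam (σ ((L.2.1 : ℚ) : ℂ)) := by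
  classical
  obtain ⟨r, hrr⟩ : ∃ r : ℚ, r = L.2.1 := ⟨_, rfl⟩
  rw [← hrr] at h0 h1 hr ⊢
  let tH : Finset ℂ := sH.image fun a => a + (r : ℂ)
  have htH : ∀ x, x ∈ tH ↔ x - r ∈ sH := by
    intro x
    constructor
    · intro hx
      obtain ⟨a, ha, rfl⟩ := Finset.mem_image.1 hx
      rwa [add_sub_cancel_right]
    · intro hx
      exact Finset.mem_image.2 ⟨_, hx, sub_add_cancel _ _⟩
  have hα : Polynomial.aeval (rm L.1 + (r : ℂ) • 1) (Lagrange.nodal tH id) = 0 := by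
    rw [aeval_shift]
    have h2 : Polynomial.aeval (rm L.1) ((Lagrange.nodal tH id).comp
        (Polynomial.X + Polynomial.C (r : ℂ))) = Polynomial.aeval (rm L.1) (0 : Polynomial ℂ) := by
      refine aeval_congr hZ fun a ha => ?_
      rw [Polynomial.eval_comp, Polynomial.eval_add, Polynomial.eval_X, Polynomial.eval_C,
        Polynomial.eval_zero]
      exact Lagrange.eval_nodal_at_node (v := id) (i := a + (r : ℂ)) ((htH _).2 (by
        rwa [add_sub_cancel_right]))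
    rw [h2, map_zero]
  have hn1 : ((2 * r : ℚ) : ℂ) ∉ tH := by
    rw [htH]
    convert h1 using 1
    push_cast
    ring_nf
  have hn2 : ((0 : ℚ) : ℂ) ∉ insert ((2 * r : ℚ) : ℂ) tH := by
    intro h
    rcases Finset.mem_insert.1 h with h | h
    · have : (0 : ℚ) = 2 * r := by exact_mod_cast h
      exact hr (by linarith)
    · rw [htH] at h
      apply h0
      convert h using 1
      push_cast
      ring
  let S : Finset ℂ := insert ((0 : ℚ) : ℂ) (insert ((2 * r : ℚ) : ℂ) tH)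
  have hS0 : Lagrange.nodal S id = (Polynomial.X - Polynomial.C ((0 : ℚ) : ℂ)) *
      ((Polynomial.X - Polynomial.C ((2 * r : ℚ) : ℂ)) * Lagrange.nodal tH id) := by
    rw [Lagrange.nodal_insert_eq_nodal hn2, Lagrange.nodal_insert_eq_nodal hn1]
    rfl
  have hB := blk_mt L
  have hop : rm (op L) = rm L.1 + (r : ℂ) • 1 := by
    unfold op
    rw [rm_add, rm_smul, rm_one, ← hrr]
  rw [hop, ← hrr] at hB
  have hM : Polynomial.aeval (OM.mt L) (Lagrange.nodal S id) = 0 := by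
    rw [hS0, mul_comm (Polynomial.X - Polynomial.C ((2 * r : ℚ) : ℂ)), ← mul_assoc, map_mul,
      map_mul]
    have e1 := hB.aeval (Polynomial.X - Polynomial.C ((0 : ℚ) : ℂ))
    have e2 := hB.aeval (Lagrange.nodal tH id)
    have e3 := hB.aeval (Polynomial.X - Polynomial.C ((2 * r : ℚ) : ℂ))
    rw [hα] at e2
    have f1 : (Polynomial.X - Polynomial.C ((0 : ℚ) : ℂ) : Polynomial ℂ).eval 0 = 0 := by simp
    have f3 : (Polynomial.X - Polynomial.C ((2 * r : ℚ) : ℂ) : Polynomial ℂ).eval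
        ((2 * r : ℚ) : ℂ) = 0 := by simp
    rw [f1] at e1
    rw [f3] at e3
    exact Blk.triple e1 e2 e3
  have hS0mem : ((0 : ℚ) : ℂ) ∈ S := Finset.mem_insert_self _ _
  have hS2mem : ((2 * r : ℚ) : ℂ) ∈ S := Finset.mem_insert_of_mem (Finset.mem_insert_self _ _)
  have hSHmem : ∀ x ∈ tH, x ∈ S := fun x hx =>
    Finset.mem_insert_of_mem (Finset.mem_insert_of_mem hx)
  let Q₂ : Polynomial ℂ := Lagrange.interpolate S id (fun x => σ x)
  have hQ₂ : ∀ x ∈ S, Q₂.eval x = σ x := fun x hx =>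
    Lagrange.eval_interpolate_at_node (fun x => σ x) (Function.injective_id.injOn) hx
  have hSt : ∀ k, Stab H k (Polynomial.aeval (OM.mt L) Q₂) := fun k =>
    stab_aeval ⟨_, hS0mem⟩ hM σ hQ₂ (hS k)
  have hBQ := hB.aeval Q₂
  have e2r : σ ((2 * r : ℚ) : ℂ) = 2 * σ (r : ℂ) := by
    have : ((2 * r : ℚ) : ℂ) = (r : ℂ) + (r : ℂ) := by push_cast; ring
    rw [this, map_add]
    ring
  have e00 : σ ((0 : ℚ) : ℂ) = 0 := by rw [Rat.cast_zero, map_zero]
  rw [hQ₂ _ hS2mem, e2r, show (0 : ℂ) = ((0 : ℚ) : ℂ) from Rat.cast_zero.symm, hQ₂ _ hS0mem,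
    e00] at hBQ
  have hAQ : Polynomial.aeval (rm L.1 + (r : ℂ) • 1) Q₂ =
      Polynomial.aeval (rm L.1) Q + σ (r : ℂ) • 1 := by
    rw [aeval_shift]
    have h2 : Polynomial.aeval (rm L.1) Q + σ (r : ℂ) • 1 =
        Polynomial.aeval (rm L.1) (Q + Polynomial.C (σ (r : ℂ))) := by
      rw [map_add, Polynomial.aeval_C, Algebra.algebraMap_eq_smul_one]
    rw [h2]
    refine aeval_congr hZ fun a ha => ?_
    rw [Polynomial.eval_comp, Polynomial.eval_add, Polynomial.eval_X, Polynomial.eval_C,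
      Polynomial.eval_add, Polynomial.eval_C, hQ a ha, ← map_add]
    exact hQ₂ _ (hSHmem _ ((htH _).2 (by rwa [add_sub_cancel_right])))
  rw [hAQ] at hBQ
  obtain ⟨L', e1, e2, e3⟩ := exists_tup' hBQ hX'
  refine ⟨L', fun k => ?_, e1, e2⟩
  rw [e3]
  exact hH.stab_map (lamF lam) (hSt k)

end Tup

end Pool.Agent.R917.DT
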