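import Pool.Agent.R917.DT.Mat
import Pool.Agent.R917.DT.Fct
import Pool.Agent.R912.U15

set_option autoImplicit false
set_option linter.unusedSectionVars false
set_option linter.unusedSimpArgs false

/-!
# Rigid derived algebra and simple centre
-/

open Module Function TensorProduct Matrix

noncomputable section

namespace Pool.Agent.R917.DT

open Pool.Agent.Y102 Pool.Agent.W516.DR Pool.Agent.H204R3.GP Pool.Agent.W516.KC
  Pool.Agent.H204R3.SP Pool.Agent.TH119.MX Pool.Agent.R917.OM Pool.Agent.Y102.AbVar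
  Pool.Agent.R917.EC

variable {g : ℕ} {A : AbVar g}

theorem full_NA : A.Full A.NA where
  le := le_refl _
  br := fun X hX Y hY => A.NA_bracket hX hY
  semi := A.semi_NA
  comm := fun P hP => hP

theorem rm_rq (X : Module.End ℚ A.H1) : rm X = rq (a := 2 * g) (b := 2 * g) X := by
  rw [rm_eq, toC_eq]
  rfl

theorem rm_inj' {X Y : Module.End ℚ A.H1} (h : rm X = rm Y) : X = Y := by
  rw [rm_eq, rm_eq] at h
  have h1 := Matrix.transpose_injective h
  rw [toC_eq, toC_eq] at h1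
  apply (LinearMap.toMatrix' : Module.End ℚ (Fin (2 * g) → ℚ) ≃ₗ[ℚ] _).injective
  ext i j
  have h2 := congrFun (congrFun h1 i) j
  rw [Matrix.map_apply, Matrix.map_apply] at h2
  exact (algebraMap ℚ ℂ).injective h2

/-- The intersection with the centre is closed under replicas. -/
theorem RC_inf_CN {𝔥 : Submodule ℚ (Module.End ℚ A.H1)} (hRC : RC 𝔥) : RC (𝔥 ⊓ A.CN) := by
  intro X hX s hs σ Q hQ lam X' hX'
  refine ⟨hRC X hX.1 s hs σ Q hQ lam X' hX', NA_RC X hX.2.1 s hs σ Q hQ lam X' hX', fun Y hY => ?_⟩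
  have h1 : rm X * rm Y = rm Y * rm X := by
    rw [← rm_mul, ← rm_mul, hX.2.2 Y hY]
  have h2 : Polynomial.aeval (rm X) Q * rm Y = rm Y * Polynomial.aeval (rm X) Q :=
    aeval_inter h1 Q
  apply rm_inj'
  rw [rm_mul, rm_mul, hX', rm_rq Y, ← rq_map_right, ← rq_map_left, ← rm_rq, h2]

/-- **Rigid derived algebra and simple centre.** -/
theorem det_of_rigid (hrig : ∀ 𝔥 : Submodule ℚ (Module.End ℚ A.H1), A.Full 𝔥 →
      ∀ X ∈ A.NA, ∀ Y ∈ A.NA, X * Y - Y * X ∈ 𝔥)
    (hc : ∀ 𝔷 : Submodule ℚ (Module.End ℚ A.H1), 𝔷 ≤ A.CN → RC 𝔷 → 𝔷 = ⊥ ∨ A.CN ≤ 𝔷)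
    (hcm : ∀ 𝔥 : Submodule ℚ (Module.End ℚ A.H1), A.Full 𝔥 → 𝔥 ≤ der A.NA → A.NA ≤ 𝔥) :
    Det A := by
  intro 𝔥 hF hRC
  have hder : der A.NA ≤ 𝔥 := by
    unfold der
    rw [Submodule.span_le]
    rintro _ ⟨X, hX, Y, hY, rfl⟩
    exact hrig 𝔥 hF X hX Y hY
  rcases hc (𝔥 ⊓ A.CN) inf_le_right (RC_inf_CN hRC) with h0 | h1
  · refine hcm 𝔥 hF fun X hX => ?_
    obtain ⟨Z, hZ, e, he, h2, h3⟩ := hF.dec hX
    have h4 : Z ∈ 𝔥 ⊓ A.CN := ⟨hZ, hF.le hZ, fun Y hY =>
      hF.comm Z (fun W hW => (h3 W hW).symm) Y hY⟩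
    rw [h0, Submodule.mem_bot] at h4
    rw [h2, h4, zero_add]
    have h5 : der 𝔥 ≤ der A.NA := by
      unfold der
      refine Submodule.span_mono ?_
      rintro _ ⟨X, hX, Y, hY, rfl⟩
      exact ⟨X, hF.le hX, Y, hF.le hY, rfl⟩
    exact h5 he
  · intro X hX
    obtain ⟨Z, hZ, e, he, h2, h3⟩ := (full_NA (A := A)).dec hX
    rw [h2]
    exact 𝔥.add_mem (h1 ⟨hZ, fun Y hY => (h3 Y hY).symm⟩).1 (hder he)

/-- **Simple tori.** -/
theorem det_torus (hcomm : ∀ X ∈ A.NA, ∀ Y ∈ A.NA, X * Y = Y * X)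
    (hc : ∀ 𝔷 : Submodule ℚ (Module.End ℚ A.H1), 𝔷 ≤ A.CN → RC 𝔷 → 𝔷 = ⊥ ∨ A.CN ≤ 𝔷) :
    Det A := by
  refine det_of_rigid (fun 𝔥 hF X hX Y hY => ?_) hc fun 𝔥 hF hle X hX => ?_
  · rw [hcomm X hX Y hY, sub_self]
    exact 𝔥.zero_mem
  · have h0 : ∀ Y ∈ 𝔥, Y = 0 := by
      intro Y hY
      have h1 : der A.NA ≤ ⊥ := by
        unfold der
        rw [Submodule.span_le]
        rintro _ ⟨P, hP, Q, hQ, rfl⟩
        rw [hcomm P hP Q hQ, sub_self]
        exact Submodule.zero_mem _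
      exact (Submodule.mem_bot _).1 (h1 (hle hY))
    have h1 : ∀ P : Module.End ℚ A.H1, X * P = P * X := fun P =>
      hF.comm P (fun Y hY => by rw [h0 Y hY, zero_mul, mul_zero]) X hX
    have h2 : X = 0 := by
      refine LinearMap.ext fun u => ?_
      rw [LinearMap.zero_apply]
      by_contra hne
      have hu : u ≠ 0 := fun h => hne (by rw [h, map_zero])
      obtain ⟨w, hw⟩ : ∃ w, A.om u w ≠ 0 := by
        by_contra hcon
        push Not at hcon
        exact hu (A.om_nondeg hcon)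
      have h3 := congrArg (fun T : Module.End ℚ A.H1 => T w)
        (h1 (LinearMap.smulRight (A.om u) u))
      change X (A.om u w • u) = A.om u (X w) • u at h3
      have h4 := A.NA_skew hX u w
      rw [map_smul] at h3
      have h5 : A.om u (X w) = -A.om (X u) w := by linear_combination h4
      have h6 := congrArg (fun v => A.om v w) h3
      simp only [map_smul, LinearMap.smul_apply, smul_eq_mul] at h6
      rw [h5] at h6 h3
      have h7 : A.om (X u) w = 0 := by
        have h8 : 2 * A.om u w * A.om (X u) w = 0 := by linear_combination h6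
        exact (mul_eq_zero.1 h8).resolve_left (mul_ne_zero two_ne_zero hw)
      rw [h7, neg_zero, zero_smul] at h3
      exact hne ((smul_eq_zero.1 h3).resolve_left hw)
    rw [h2]
    exact 𝔥.zero_mem

section unitary

theorem comm_char {R : Type} [Ring R] [Algebra ℂ R] {P Q Z : R} {t t' : ℂ}
    (ht : P * Z - Z * P = t • Z) (ht' : Q * Z - Z * Q = t' • Z) :
    Z * (P * Q - Q * P) = (P * Q - Q * P) * Z := by
  have h3 : (P * Q - Q * P) * Z - Z * (P * Q - Q * P) =
      P * (Q * Z - Z * Q) - (Q * Z - Z * Q) * P -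
        (Q * (P * Z - Z * P) - (P * Z - Z * P) * Q) := by
    noncomm_ring
  have h4 : P * (t' • Z) - (t' • Z) * P = (t' * t) • Z := by
    rw [mul_smul_comm, smul_mul_assoc, ← smul_sub, ht, smul_smul]
  have h5 : Q * (t • Z) - (t • Z) * Q = (t * t') • Z := by
    rw [mul_smul_comm, smul_mul_assoc, ← smul_sub, ht', smul_smul]
  rw [ht, ht', h4, h5, mul_comm t t', sub_self] at h3
  exact (sub_eq_zero.1 h3).symm

open Pool.Agent.R912

variable {N k : ℕ} {c : Fin N → Fin k}

section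

variable {U : Type} [AddCommGroup U] [Module ℂ U] {a b : Fin N → Module.End ℂ U} (h : CAR a b)
include h

theorem lp_br3 {i j : Fin N} {l : List (Fin N)} (hj : j ∉ l) :
    gij a b i j * lp a l - lp a l * gij a b i j = 0 := by
  induction l with
  | nil =>
    have h1 : lp a [] = 1 := by simp [Pool.Agent.R912.lp]
    rw [h1, mul_one, one_mul, sub_self]
  | cons x l ih =>
    rw [List.mem_cons, not_or] at hj
    rw [h.lp_br_cons, ih hj.2, if_neg (Ne.symm hj.1), zero_mul, mul_zero, add_zero]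

theorem exists_char (i0 : Fin N) [Nontrivial U] : ∃ Z : Module.End ℂ U, Z ≠ 0 ∧
    (∀ X ∈ glC a b c, ∃ t : ℂ, X * Z - Z * X = t • Z) ∧
      gij a b i0 i0 * Z - Z * gij a b i0 i0 = Z := by
  classical
  obtain ⟨ω, hω0, hω⟩ := h.exists_vac
  obtain ⟨l, hl⟩ : ∃ l, l = (List.finRange N).filter fun i => c i = c i0 := ⟨_, rfl⟩
  have hnd : l.Nodup := by
    rw [hl]
    exact (List.nodup_finRange N).filter _
  have hmem : ∀ i, i ∈ l ↔ c i = c i0 := by
    intro i
    rw [hl, List.mem_filter]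
    simp
  refine ⟨lp a l, ?_, ?_, ?_⟩
  · intro h0
    have h3 := (h.lp_st hω hω0 l hnd).1
    rw [h0] at h3
    exact h3 rfl
  · intro X hX
    induction hX using Submodule.span_induction with
    | mem X hX =>
      obtain ⟨i, j, hij, rfl⟩ := hX
      by_cases e1 : i = j
      · subst e1
        exact ⟨_, h.lp_br2 i l⟩
      · refine ⟨0, ?_⟩
        rw [zero_smul]
        by_cases e2 : i ∈ l
        · exact h.lp_br1 e1 e2
        · refine lp_br3 h fun e3 => e2 ?_
          rw [hmem] at e3 ⊢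
          exact hij.trans e3
    | zero => exact ⟨0, by rw [zero_mul, mul_zero, sub_zero, zero_smul]⟩
    | add X Y _ _ hX hY =>
      obtain ⟨t, ht⟩ := hX
      obtain ⟨t', ht'⟩ := hY
      refine ⟨t + t', ?_⟩
      rw [add_smul, ← ht, ← ht', add_mul, mul_add]
      abel
    | smul r X _ hX =>
      obtain ⟨t, ht⟩ := hX
      refine ⟨r * t, ?_⟩
      rw [mul_smul, ← ht, smul_mul_assoc, mul_smul_comm, smul_sub]
  · rw [h.lp_br2, List.count_eq_one_of_mem hnd ((hmem i0).2 rfl), Nat.cast_one, one_smul]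

end

variable {a b : Fin N → Module.End ℂ (ℂ ⊗[ℚ] A.H1)} {𝔥 : Submodule ℚ (Module.End ℚ A.H1)}

/-- The derived algebra has a larger commutant. -/
theorem unitary_der (hF : A.Full 𝔥) (h : CAR a b) (hl : cx A.NA = glC a b c)
    (hle : 𝔥 ≤ der A.NA) : A.NA ≤ 𝔥 := by
  classical
  intro X hX
  refine mem_of_bc ?_
  rcases subsingleton_or_nontrivial (ℂ ⊗[ℚ] A.H1) with hs | hn
  · have : X.baseChange ℂ = 0 := by
      ext x
      exact Subsingleton.elim _ _
    rw [this]
    exact Submodule.zero_mem _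
  by_cases hN : ∃ i0 : Fin N, True
  · exfalso
    obtain ⟨i0, -⟩ := hN
    obtain ⟨Z, hZ0, hZ, hZi⟩ := exists_char (c := c) h i0
    have h1 : ∀ X ∈ A.NA, ∃ t : ℂ, X.baseChange ℂ * Z - Z * X.baseChange ℂ = t • Z :=
      fun X hX => hZ _ (hl ▸ bc_mem hX)
    have h2 : ∀ X ∈ der A.NA, Z * X.baseChange ℂ = X.baseChange ℂ * Z := by
      intro X hX
      unfold der at hX
      induction hX using Submodule.span_induction with
      | mem X hX =>
        obtain ⟨P, hP, Q, hQ, rfl⟩ := hX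
        obtain ⟨t, ht⟩ := h1 P hP
        obtain ⟨t', ht'⟩ := h1 Q hQ
        rw [bc_br]
        exact comm_char ht ht'
      | zero => rw [LinearMap.baseChange_zero, mul_zero, zero_mul]
      | add X Y _ _ hX hY => rw [LinearMap.baseChange_add, mul_add, add_mul, hX, hY]
      | smul r X _ hX =>
        rw [LinearMap.baseChange_smul, mul_smul_comm, smul_mul_assoc, hX]
    have h3 : ∀ X ∈ cx A.NA, Z * X = X * Z :=
      hF.cx_com Z (cx_comm fun X hX => h2 X (hle hX))
    have h4 := h3 (gij a b i0 i0) (by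
      rw [hl]
      exact Submodule.subset_span ⟨i0, i0, rfl, rfl⟩)
    rw [h4, sub_self] at hZi
    exact hZ0 hZi.symm
  · have h1 : cx A.NA = ⊥ := by
      rw [hl]
      unfold glC
      rw [Submodule.span_eq_bot]
      rintro _ ⟨i, -⟩
      exact absurd ⟨i, trivial⟩ hN
    have h2 := bc_mem hX
    change _ ∈ cx A.NA at h2
    rw [h1, Submodule.mem_bot] at h2
    rw [h2]
    exact Submodule.zero_mem _

/-- **Unitary type with several colours.** -/
theorem det_unitary (hab : CAR a b) (hl : cx A.NA = glC a b c)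
    (hev : ∀ i, Even (Finset.univ.filter fun j => c j = c i).card)
    (hc : ∀ 𝔷 : Submodule ℚ (Module.End ℚ A.H1), 𝔷 ≤ A.CN → RC 𝔷 → 𝔷 = ⊥ ∨ A.CN ≤ 𝔷) :
    Det A :=
  det_of_rigid (fun 𝔥 hF X hX Y hY => full_unitary hF hab hl hev hX hY) hc
    fun 𝔥 hF hle => unitary_der hF hab hl hle

end unitary

end Pool.Agent.R917.DT
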