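import Pool.Agent.R917.DT.Fct

set_option autoImplicit false
set_option linter.unusedSectionVars false
set_option linter.unusedSimpArgs false

/-!
# The Hodge structure of the 1-motive, when the complex structure of the abelian part is given
-/

open Module Function TensorProduct Matrix

noncomputable section

namespace Pool.Agent.R917.BX

open Pool.Agent.Y102 Pool.Agent.W516.DR Pool.Agent.H204R3.GP Pool.Agent.W516.KC
  Pool.Agent.H204R3.SP Pool.Agent.TH119.MX Pool.Agent.R917.OM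

variable {g : ℕ} {A : AbVarG g} {n s : ℕ} {𝔤 : Submodule ℚ (Tup A.toAbVar n s)} {d : Dt g n s}

namespace UD

variable (u : UD 𝔤 d)

include u in
/-- **The complex structure is in the Lie algebra.** -/
theorem tJ_mem' (h : Lg 𝔤 d) (lam : ℂ →ₗ[ℚ] ℚ)
    (hJ : ∃ L ∈ 𝔤, L.1 = A.cmpE (fr lam) AbVar.JJ ∧ L.2.1 = 0) : tJ A.toAbVar d lam ∈ 𝔤 := by
  obtain ⟨L, hL, e1, e2⟩ := hJ
  have h1 : tJ A.toAbVar (fd u.w d) lam ∈ 𝔤.map (cj u.w) := by
    refine mem_of_parts' (map_Lg u.w h) (u.hBmap h) (L := cj u.w L) ⟨L, hL, rfl⟩ e1.symm e2.symm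
      ?_ fun φ hφ ρ hρ => ?_
    · rw [uu_map]
      have h5 := u.levi L hL
      have h6 := u.cmp_mem (fr lam) (x := Complex.I • (pt d - Pe u.w))
        (u.W.smul_mem _ u.pt_mem)
      have h7 := (uu 𝔤).sub_mem h6 h5
      exact h7
    · have h5 : (tJ A.toAbVar (fd u.w d) lam).2.1 = 0 := rfl
      rw [h5, mul_zero, zero_mul, phi_eq]
      have hm : Sym 𝔤 (mC φ) := sym_of_phi h fun t ht => hφ t (by rw [tt_map]; exact ht)
      have h6 := u.sum_E_I hm u.pt_mem
      have h7 := congrArg lam h6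
      rw [map_zero, map_sum] at h7
      rw [← h7]
      refine Finset.sum_congr rfl fun i _ => ?_
      rw [map_sum]
      refine Finset.sum_congr rfl fun l _ => ?_
      unfold mC
      rw [← Rat.smul_def, map_smul, smul_eq_mul]
      rfl
  obtain ⟨L', hL', h2⟩ := h1
  rw [← cj_tJ] at h2
  rw [← cj_inj u.w h2]
  exact hL'

end UD

end Pool.Agent.R917.BX

namespace Pool.Agent.R917.DT

open Pool.Agent.Y102 Pool.Agent.W516.DR Pool.Agent.H204R3.GP Pool.Agent.W516.KC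
  Pool.Agent.H204R3.SP Pool.Agent.TH119.MX Pool.Agent.R917.OM Pool.Agent.Y102.AbVar
  Pool.Agent.R917.EC Pool.Agent.R917.BX

variable {g : ℕ} {n s : ℕ}

theorem lifts_J {A : AbVar g} {d : Dt g n s} {H : Set (Matrix (RI g n s) (RI g n s) ℂ)}
    (hdet : DetJ A) (hpt : PtM A d H) (r : ℝ →ₗ[ℚ] ℚ) :
    ∃ L ∈ gg A n s H, L.1 = A.cmpE r AbVar.JJ ∧ L.2.1 = 0 := by
  have h : Lg (gg A n s H) d := gg_Lg hpt
  obtain ⟨W, hW, hW1, hW2⟩ := weight hpt
  have h0 := hdet (aa (gg A n s H)) h.full.le h.full.br (fun D lam => ⟨_, h.per D lam, rfl⟩)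
    (aa_RC hpt) r
  obtain ⟨L, hL, h1⟩ := h0
  refine ⟨L - L.2.1 • W, (gg A n s H).sub_mem hL ((gg A n s H).smul_mem _ hW), ?_, ?_⟩
  · change L.1 - L.2.1 • W.1 = _
    rw [hW1, smul_zero, sub_zero]
    exact h1
  · change L.2.1 - L.2.1 * W.2.1 = 0
    rw [hW2, mul_one, sub_self]

/-- **The Hodge structure of the 1-motive is in the Lie algebra of the group.** -/
theorem hodge_stab6 {A : AbVarG g} {d : Dt g n s} {H : Set (Matrix (RI g n s) (RI g n s) ℂ)}
    (hpt : PtM A.toAbVar d H) (hd : Good A d)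
    {K₁ : IntermediateField ℚ ℂ} [FiniteDimensional ℚ K₁]
    (hu : ∀ p (m : ℕ), IsRat A.toAbVar K₁ (m • pt d p)) (hdet : DetJ A.toAbVar) :
    (∀ k, Stab H k (XJ A.toAbVar d)) ∧ ∀ k, Stab H k (XW A.toAbVar d) := by
  have hLg := gg_Lg hpt
  obtain ⟨u⟩ := main2 hLg hu
  constructor
  · intro k
    refine stab_of_comp fun lam => ?_
    rw [← mt_tJ]
    exact (u.tJ_mem' hLg lam (lifts_J hdet hpt (fr lam))).2 k
  · intro k
    refine stab_of_comp fun lam => ?_
    rw [← mt_tW]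
    exact (u.tW_mem hLg hd (weight hpt) lam).2 k

end Pool.Agent.R917.DT
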