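import Pool.Agent.R917.DT.Fct
import Pool.Agent.R917.Bridge

set_option autoImplicit false
set_option linter.unusedSectionVars false
set_option linter.unusedSimpArgs false

/-!
# Motives with algebraic periods, generated by factors of determined abelian varieties
-/

open Module Function TensorProduct Matrix

noncomputable section

namespace Pool.Agent.R917.DT

open Pool.Agent.Y102 Pool.Agent.W516.DR Pool.Agent.H204R3.GP Pool.Agent.W516.KC
  Pool.Agent.H204R3.SP Pool.Agent.TH119.MX Pool.Agent.R917.OM Pool.Agent.Y102.AbVar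
  Pool.Agent.R917.EC

variable {g : ℕ} {A : AbVar g} {κ : Type} [Fintype κ] [DecidableEq κ] {N : ℕ}
  {u : Fin N → MultilinearMap ℚ (fun _ : κ => A.H1) ℚ}

/-- Replicas kill the same rational forms. -/
theorem kills_rc {X : Module.End ℚ A.H1} {φ : MultilinearMap ℚ (fun _ : κ => A.H1) ℚ}
    (hX : Kills X φ) {s : Finset ℂ} (hs : Polynomial.aeval (rm X) (Lagrange.nodal s id) = 0)
    (σ : ℂ →+ ℂ) {Q : Polynomial ℂ} (hQ : ∀ a ∈ s, Q.eval a = σ a) (lam : ℂ →ₗ[ℚ] ℚ)
    {X' : Module.End ℚ A.H1} (hX' : rm X' = (Polynomial.aeval (rm X) Q).map (lamF lam)) :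
    Kills X' φ := by
  rw [cmpE_aeval hX']
  have hT : Polynomial.aeval (X.baseChange ℂ : Module.End ℂ (ℂ ⊗[ℚ] A.H1))
      (Lagrange.nodal s id) = 0 := by
    apply (LinearMap.toMatrixAlgEquiv (A.bas.baseChange ℂ)).injective
    rw [← Polynomial.aeval_algHom_apply, toMatrix_bc, map_zero]
    rw [rm_eq, aeval_transpose] at hs
    exact Matrix.transpose_eq_zero.1 hs
  refine (kills_bcm_iff A.bas φ _).1 (kills_replica hT σ hQ ?_) lam
  rw [kills_bcm_iff]
  intro mu
  have h4 : Pool.Agent.W516.DR.cmpE mu (X.baseChange ℂ) = mu 1 • X := by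
    refine LinearMap.ext fun w => ?_
    rw [Pool.Agent.W516.DR.cmpE_apply, LinearMap.baseChange_tmul, cmp_tmul]
    rfl
  rw [h4]
  intro v
  have h5 := hX v
  rw [← mul_zero (mu 1), ← h5, Finset.mul_sum]
  refine Finset.sum_congr rfl fun k _ => ?_
  rw [LinearMap.smul_apply, MultilinearMap.map_update_smul, smul_eq_mul]

theorem dact_zero_iff {X : Module.End ℚ A.H1} {φ : MultilinearMap ℚ (fun _ : κ => A.H1) ℚ} :
    dact X φ = 0 ↔ Kills X φ := by
  constructor
  · intro h v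
    rw [← dact_apply, h]
    rfl
  · intro h
    refine MultilinearMap.ext fun v => ?_
    rw [dact_apply]
    exact h v

theorem nU_RC {U : Submodule ℚ (MultilinearMap ℚ (fun _ : κ => A.H1) ℚ)} : RC (nU A U) := by
  intro X hX s hs σ Q hQ lam X' hX'
  exact ⟨NA_RC X hX.1 s hs σ Q hQ lam X' hX', fun φ hφ =>
    dact_zero_iff.2 (kills_rc (dact_zero_iff.1 (hX.2 φ hφ)) hs σ hQ lam hX')⟩

/-- The complex structure kills the forms. -/
theorem J_mem_nU (hdet : DetJ A) {U : Submodule ℚ (MultilinearMap ℚ (fun _ : κ => A.H1) ℚ)}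
    (h0 : ∀ (D : Derivation QBar ℂ ℂ) (lam : ℂ →ₗ[ℚ] ℚ), ∀ φ ∈ U,
      Kills (X0 A.basis tau D lam) φ) (r : ℝ →ₗ[ℚ] ℚ) : A.cmpE r AbVar.JJ ∈ nU A U := by
  refine hdet (nU A U) (fun X hX => hX.1) (fun X hX Y hY => nU_ideal (nU_le hX) hY)
    (fun D lam => ⟨A.LA_le_NA ?_, fun φ hφ => dact_zero_iff.2 (h0 D lam φ hφ)⟩) nU_RC r
  rw [AbVar.LA_eq]
  exact X0_mem A.basis AbVar.tau_ne D lam

theorem trivial_of_J (hu : LinearIndependent ℚ u) (hU : ∀ z : ℂ, z ≠ 0 → ∃ M, IsHM A u z M)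
    (hJ : ∀ f : ℝ →ₗ[ℚ] ℚ, A.cmpE f AbVar.JJ ∈ nU A (Submodule.span ℚ (Set.range u)))
    {z : ℂ} {M : Matrix (Fin N) (Fin N) ℝ} (hM : IsHM A u z M) :
    M = (‖z‖ ^ Fintype.card κ) • (1 : Matrix (Fin N) (Fin N) ℝ) := by
  obtain ⟨R, hR1, hR2⟩ := exists_JU hu fun θ => hU _ (Complex.exp_ne_zero _)
  have hmat : ∀ f : ℝ →ₗ[ℚ] ℚ, IsMat u (A.cmpE f AbVar.JJ) (R.map f) := fun f i =>
    dact_JJ hR1 f i
  have hR0 : R = 0 := by
    ext j i
    refine exists_sep fun f => ?_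
    have h3 : IsMat u (A.cmpE f AbVar.JJ) 0 := fun i => by
      rw [(hJ f).2 _ (Submodule.subset_span ⟨i, rfl⟩)]
      exact (Finset.sum_eq_zero fun j _ => by rw [Matrix.zero_apply, zero_smul]).symm
    have h4 := congrFun (congrFun ((hmat f).unique hu h3) j) i
    exact h4
  subst hR0
  have hexp : ∀ θ : ℝ, ∃ M, IsHM A u (Complex.exp (θ * Complex.I)) M := fun θ =>
    hU _ (Complex.exp_ne_zero _)
  choose E hE using hexp
  have h1 := hR2 E hE
  have h2 := exp_of_der (M := E) (R := 0) ?_ ?_ h1 (Complex.arg z)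
  · have h4 := (isHM_real (A := A) (u := u) ‖z‖).mul (hE (Complex.arg z))
    rw [Complex.norm_mul_exp_arg_mul_I] at h4
    rw [hM.unique hu h4, h2, smul_zero, NormedSpace.exp_zero, Matrix.one_mul]
  · refine (hE 0).unique hu ?_
    have h3 : Complex.exp (((0 : ℝ) : ℂ) * Complex.I) = 1 := by simp
    rw [h3]
    exact isHM_one
  · intro s t
    refine (hE (s + t)).unique hu ?_
    have h3 : Complex.exp (((s + t : ℝ) : ℂ) * Complex.I) =
        Complex.exp (t * Complex.I) * Complex.exp (s * Complex.I) := by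
      rw [← Complex.exp_add]
      congr 1
      push_cast
      ring
    rw [h3]
    exact (hE t).mul (hE s)

/-- De Rham-Betti classes of weight zero are killed. -/
theorem kills_of_compat {φ : MultilinearMap ℚ (fun _ : κ => A.H1) ℚ} {w : ℤ}
    {a : (κ → Fin g ⊕ Fin g) → QBar} (h : Compat A.dR tau w a φ)
    (hw : (Fintype.card κ : ℤ) = 2 * w) (D : Derivation QBar ℂ ℂ) (lam : ℂ →ₗ[ℚ] ℚ) :
    Kills (X0 A.basis tau D lam) φ := by
  have h1 := A.X0_acts h D lam
  have h2 : ((w : ℂ) - Fintype.card κ / 2) = 0 := by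
    have h3 : ((Fintype.card κ : ℤ) : ℂ) = ((2 * w : ℤ) : ℂ) := by rw [hw]
    push_cast at h3
    rw [h3]
    ring
  rw [h2, zero_mul, map_zero] at h1
  exact actsBy_zero_iff.1 h1

theorem kills_span' {X : Module.End ℚ A.H1} (h : ∀ i, Kills X (u i)) :
    ∀ φ ∈ Submodule.span ℚ (Set.range u), Kills X φ := by
  intro φ hφ
  rw [← dact_zero_iff]
  induction hφ using Submodule.span_induction with
  | mem φ hφ =>
    obtain ⟨i, rfl⟩ := hφ
    exact dact_zero_iff.2 (h i)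
  | zero => exact dact_zero' X
  | add φ ψ _ _ h1 h2 => rw [dact_add', h1, h2, add_zero]
  | smul c φ _ h1 => rw [dact_smul', h1, smul_zero]

end Pool.Agent.R917.DT
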